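import Pool.Agent.helper18.DH.SpecM
import Pool.Agent.helper13.D2.SZC

/-!
# Module FPR of project dh (MP_5823cb): the maps `F_i` (helper34)
-/

set_option autoImplicit false

open Filter Topology MeasureTheory
open scoped commutatorElement

namespace Pool.Agent.helper90.DH

open Pool.Agent.helper64.D2

theorem FPR_mvt (f : ℝ → ℝ) (C : ℝ) (hd : Differentiable ℝ f) (hb : ∀ x, |deriv f x| ≤ C) (x y : ℝ) : |f x - f y| ≤ C * |x - y| := by
  have h := Convex.norm_image_sub_le_of_norm_deriv_le (𝕜 := ℝ) (f := f) (C := C) (s := Set.univ) (fun z _ => hd z) (fun z _ => by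
    rw [Real.norm_eq_abs]; exact hb z) convex_univ (Set.mem_univ y) (Set.mem_univ x)
  rwa [Real.norm_eq_abs, Real.norm_eq_abs] at h

/-- **FPR** -/
theorem FPR (hQPR : QPR_stmt) (hLPC : LPC_stmt) : FPR_stmt := by
  intro q Y Q ε d L hq hF hε0 hε1 hL hQ i hi
  obtain ⟨hS, -, hY⟩ := hQPR q Y Q ε d L hq hF hε0 hε1 hQ
  obtain ⟨hYc, -, hYb⟩ := hF i hi
  obtain ⟨hS1, hL1⟩ := hS (i + 1) hi
  obtain ⟨φ, hφ⟩ : ∃ φ : DD, φ = (Q (i + 1))⁻¹ := ⟨_, rfl⟩
  have hq0 : (0 : ℝ) < q := by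
    have : (1 : ℝ) ≤ q := by exact_mod_cast hq
    linarith
  have hq1 : (1 : ℝ) ≤ q := by exact_mod_cast hq
  have hSφ : Sz φ (2 * ε) := by
    rw [hφ]
    exact SZC_inv _ ε hS1 (by linarith)
  have hLφ : Lp φ (2 * (q * L) + 1) := by
    rw [hφ]
    exact hLPC.2 _ ε _ hε1 hS1 hL1
  have hev : ∀ x, ev (Fm Q i) x = x + Y i (ev φ x) := by
    intro x
    have h1 : ev (Fm Q i) x = ev (Q i) (ev φ x) := by rw [hφ]; rfl
    rw [h1, (hY i hi (ev φ x)).2.2.2.2, hφ, ev_inv']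
  -- derivatives
  have hYd : Differentiable ℝ (Y i) := hYc.differentiable (by norm_num)
  have hY2 : Differentiable ℝ (deriv (Y i)) := (SZC_c1 _ hYc).differentiable (by norm_num)
  have hg1 := SZC_d1 φ
  have hg2 := SZC_d2 φ
  have hd1 : ∀ x, HasDerivAt (ev (Fm Q i)) (1 + deriv (Y i) (ev φ x) * deriv (ev φ) x) x := by
    intro x
    have h1 : HasDerivAt (fun x => x + Y i (ev φ x)) (1 + deriv (Y i) (ev φ x) * deriv (ev φ) x) x :=
      (hasDerivAt_id x).add (HasDerivAt.comp x (hYd (ev φ x)).hasDerivAt (hg1 x).hasDerivAt)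
    have h2 : ev (Fm Q i) = fun x => x + Y i (ev φ x) := funext hev
    rw [h2]
    exact h1
  have hdf : deriv (ev (Fm Q i)) = fun x => 1 + deriv (Y i) (ev φ x) * deriv (ev φ) x := funext fun x => (hd1 x).deriv
  have hd2 : ∀ x, d2 (ev (Fm Q i)) x = d2 (Y i) (ev φ x) * deriv (ev φ) x * deriv (ev φ) x + deriv (Y i) (ev φ x) * d2 (ev φ) x := by
    intro x
    have h1 : HasDerivAt (fun x => 1 + deriv (Y i) (ev φ x) * deriv (ev φ) x)
        (d2 (Y i) (ev φ x) * deriv (ev φ) x * deriv (ev φ) x + deriv (Y i) (ev φ x) * d2 (ev φ) x) x := by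
      have h3 := (HasDerivAt.comp x (hY2 (ev φ x)).hasDerivAt (hg1 x).hasDerivAt).mul (hg2 x).hasDerivAt
      exact h3.const_add 1
    unfold d2 at h1 ⊢
    rw [hdf]
    exact h1.deriv
  -- bounds
  obtain ⟨η, hη⟩ : ∃ η : ℝ, η = ε / q := ⟨_, rfl⟩
  have hη0 : 0 ≤ η := by rw [hη]; positivity
  have hηε : η ≤ ε := by
    rw [hη]
    exact div_le_self hε0 hq1
  have hqη : q * η = ε := by
    rw [hη]
    field_simp
  have b1 : ∀ x, |deriv (ev φ) x - 1| ≤ 2 * ε := fun x => SZC_der φ _ hSφ x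
  have b1' : ∀ x, |deriv (ev φ) x| ≤ 102 / 100 := by
    intro x
    have := abs_le.1 (b1 x)
    rw [abs_le]
    constructor <;> linarith [this.1, this.2]
  have bY1 : ∀ x, |deriv (Y i) x| ≤ η := fun x => by rw [hη]; exact (hY i hi x).1
  have bY2 : ∀ x, |d2 (Y i) x| ≤ η := fun x => by rw [hη]; exact (hYb x).1
  have hd0 : 0 ≤ d := (abs_nonneg _).trans (hYb 0).2.1
  refine ⟨hφ ▸ hev, ?_, ?_, ?_⟩
  · intro x
    constructor
    · rw [hev]
      have h1 : x + Y i (ev φ x) - x = Y i (ev φ x) := by ring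
      rw [h1]
      exact (hYb _).2.2.1
    · rw [hdf]
      have h1 : 1 + deriv (Y i) (ev φ x) * deriv (ev φ) x - 1 = deriv (Y i) (ev φ x) * deriv (ev φ) x := by ring
      simp only [h1]
      rw [abs_mul]
      have h2 := (hYb (ev φ x)).2.1
      have h3 := b1' x
      have h4 := mul_le_mul h2 h3 (abs_nonneg _) hd0
      linarith
  · intro x
    rw [hd2]
    have h1 : |d2 (Y i) (ev φ x) * deriv (ev φ) x * deriv (ev φ) x| ≤ η * (102 / 100) * (102 / 100) := by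
      rw [abs_mul, abs_mul]
      exact mul_le_mul (mul_le_mul (bY2 _) (b1' x) (abs_nonneg _) hη0) (b1' x) (abs_nonneg _) (by positivity)
    have h2 : |deriv (Y i) (ev φ x) * d2 (ev φ) x| ≤ η * (2 * ε) := by
      rw [abs_mul]
      exact mul_le_mul (bY1 _) (hSφ x) (abs_nonneg _) hη0
    have h3 := abs_add_le (d2 (Y i) (ev φ x) * deriv (ev φ) x * deriv (ev φ) x) (deriv (Y i) (ev φ x) * d2 (ev φ) x)
    have h4 : 2 * ε / q = 2 * η := by
      rw [hη]
      ring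
    rw [h4]
    nlinarith
  · -- Lipschitz
    intro x y
    rw [hd2, hd2]
    obtain ⟨δ, hδ⟩ : ∃ δ : ℝ, δ = |x - y| := ⟨_, rfl⟩
    have hδ0 : 0 ≤ δ := by rw [hδ]; exact abs_nonneg _
    have l0 : |ev φ x - ev φ y| ≤ 102 / 100 * δ := by rw [hδ]; exact FPR_mvt _ _ hg1 b1' x y
    have l1 : |deriv (ev φ) x - deriv (ev φ) y| ≤ 2 * ε * δ := by rw [hδ]; exact FPR_mvt _ _ hg2 (fun z => hSφ z) x y
    have l2 : |d2 (ev φ) x - d2 (ev φ) y| ≤ (2 * (q * L) + 1) * δ := by rw [hδ]; exact hLφ x y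
    have l3 : |deriv (Y i) (ev φ x) - deriv (Y i) (ev φ y)| ≤ η * (102 / 100 * δ) :=
      (FPR_mvt _ _ hY2 bY2 _ _).trans (mul_le_mul_of_nonneg_left l0 hη0)
    have l4 : |d2 (Y i) (ev φ x) - d2 (Y i) (ev φ y)| ≤ L * (102 / 100 * δ) :=
      ((hYb (ev φ x)).2.2.2 (ev φ y)).trans (mul_le_mul_of_nonneg_left l0 (by linarith))
    have a1 := b1' x
    have a2 := b1' y
    have a3 := bY2 (ev φ y)
    have a4 := hSφ x
    have a5 := bY1 (ev φ y)
    have e : d2 (Y i) (ev φ x) * deriv (ev φ) x * deriv (ev φ) x + deriv (Y i) (ev φ x) * d2 (ev φ) x -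
        (d2 (Y i) (ev φ y) * deriv (ev φ) y * deriv (ev φ) y + deriv (Y i) (ev φ y) * d2 (ev φ) y) =
        (d2 (Y i) (ev φ x) - d2 (Y i) (ev φ y)) * (deriv (ev φ) x * deriv (ev φ) x) +
        d2 (Y i) (ev φ y) * ((deriv (ev φ) x - deriv (ev φ) y) * (deriv (ev φ) x + deriv (ev φ) y)) +
        (deriv (Y i) (ev φ x) - deriv (Y i) (ev φ y)) * d2 (ev φ) x + deriv (Y i) (ev φ y) * (d2 (ev φ) x - d2 (ev φ) y) := by ring
    rw [e, ← hδ]
    have t1 : |(d2 (Y i) (ev φ x) - d2 (Y i) (ev φ y)) * (deriv (ev φ) x * deriv (ev φ) x)| ≤ L * (102 / 100 * δ) * (102 / 100 * (102 / 100)) := by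
      rw [abs_mul, abs_mul]
      exact mul_le_mul l4 (mul_le_mul a1 a1 (abs_nonneg _) (by norm_num)) (by positivity) (by positivity)
    have t2 : |d2 (Y i) (ev φ y) * ((deriv (ev φ) x - deriv (ev φ) y) * (deriv (ev φ) x + deriv (ev φ) y))| ≤ η * (2 * ε * δ * (204 / 100)) := by
      rw [abs_mul, abs_mul]
      have h1 : |deriv (ev φ) x + deriv (ev φ) y| ≤ 204 / 100 := (abs_add_le _ _).trans (by linarith)
      exact mul_le_mul a3 (mul_le_mul l1 h1 (abs_nonneg _) (by positivity)) (by positivity) hη0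
    have t3 : |(deriv (Y i) (ev φ x) - deriv (Y i) (ev φ y)) * d2 (ev φ) x| ≤ η * (102 / 100 * δ) * (2 * ε) := by
      rw [abs_mul]
      exact mul_le_mul l3 a4 (abs_nonneg _) (by positivity)
    have t4 : |deriv (Y i) (ev φ y) * (d2 (ev φ) x - d2 (ev φ) y)| ≤ η * ((2 * (q * L) + 1) * δ) := by
      rw [abs_mul]
      exact mul_le_mul a5 l2 (abs_nonneg _) hη0
    have s1 := abs_add_le ((d2 (Y i) (ev φ x) - d2 (Y i) (ev φ y)) * (deriv (ev φ) x * deriv (ev φ) x) +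
        d2 (Y i) (ev φ y) * ((deriv (ev φ) x - deriv (ev φ) y) * (deriv (ev φ) x + deriv (ev φ) y)) +
        (deriv (Y i) (ev φ x) - deriv (Y i) (ev φ y)) * d2 (ev φ) x) (deriv (Y i) (ev φ y) * (d2 (ev φ) x - d2 (ev φ) y))
    have s2 := abs_add_le ((d2 (Y i) (ev φ x) - d2 (Y i) (ev φ y)) * (deriv (ev φ) x * deriv (ev φ) x) +
        d2 (Y i) (ev φ y) * ((deriv (ev φ) x - deriv (ev φ) y) * (deriv (ev φ) x + deriv (ev φ) y)))
        ((deriv (Y i) (ev φ x) - deriv (Y i) (ev φ y)) * d2 (ev φ) x)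
    have s3 := abs_add_le ((d2 (Y i) (ev φ x) - d2 (Y i) (ev φ y)) * (deriv (ev φ) x * deriv (ev φ) x))
        (d2 (Y i) (ev φ y) * ((deriv (ev φ) x - deriv (ev φ) y) * (deriv (ev φ) x + deriv (ev φ) y)))
    have u1 : L * (102 / 100 * δ) * (102 / 100 * (102 / 100)) ≤ 107 / 100 * (L * δ) := by
      have : 0 ≤ L * δ := by positivity
      nlinarith
    have hLδ : δ ≤ L * δ := by nlinarith
    have hηe : η * ε ≤ 1 / 10000 := by nlinarith
    have u2 : η * (2 * ε * δ * (204 / 100)) ≤ 1 / 1000 * (L * δ) := by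
      have h1 : η * (2 * ε * δ * (204 / 100)) = (η * ε) * δ * (408 / 100) := by ring
      rw [h1]
      nlinarith [mul_nonneg hη0 hε0]
    have u3 : η * (102 / 100 * δ) * (2 * ε) ≤ 1 / 1000 * (L * δ) := by
      have h1 : η * (102 / 100 * δ) * (2 * ε) = (η * ε) * δ * (204 / 100) := by ring
      rw [h1]
      nlinarith [mul_nonneg hη0 hε0]
    have u4 : η * ((2 * (q * L) + 1) * δ) ≤ 3 / 100 * (L * δ) := by
      have h1 : η * ((2 * (q * L) + 1) * δ) = 2 * (q * η) * (L * δ) + η * δ := by ring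
      rw [h1, hqη]
      have h2 : 0 ≤ L * δ := by positivity
      nlinarith
    have hLδ0 : 0 ≤ L * δ := by positivity
    linarith

end Pool.Agent.helper90.DH
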