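import Pool.Agent.helper34.DH.Rel

/-!
# Classes of parallel coordinates cancel modulo standard elements
-/

set_option autoImplicit false

namespace Pool.Agent.helper34.DH

open Finset

theorem int_of_fract {x : ℚ} (h : Int.fract x = 0) : ∃ n : ℤ, x = n := by
  rw [Int.fract_eq_zero_iff] at h
  obtain ⟨n, hn⟩ := h
  exact ⟨n, hn.symm⟩

/-- `F (κ y + b)` as a sum over division points -/
theorem div_points (κ : ℤ) (hκ : κ ≠ 0) (b : ℚ) : ∃ c : ℤ, ∃ T : Finset ℚ,
    (∀ w, w ∈ T ↔ 0 ≤ w ∧ w < 1 ∧ Int.fract ((κ : ℚ) * (-w) + b) = 0) ∧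
    ∀ y, F (κ * y + b) = (if 0 < κ then (1 : ℤ) else -1) • ∑ w ∈ T, F (y + w) + c • hh := by
  set n : ℕ := κ.natAbs with hn
  have hn0 : 0 < n := Int.natAbs_pos.2 hκ
  have hnq : (n : ℚ) ≠ 0 := by exact_mod_cast hn0.ne'
  have hκq : (κ : ℚ) ≠ 0 := by exact_mod_cast hκ
  set s : ℤ := if 0 < κ then 1 else -1 with hs
  have hsn : κ = s * n := by
    rw [hs]
    split_ifs with h
    · omega
    · omega
  have hss : s * s = 1 := by rw [hs]; split_ifs <;> norm_num
  have hssq : (s : ℚ) * s = 1 := by exact_mod_cast hss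
  have hsnq : (κ : ℚ) = s * n := by exact_mod_cast hsn
  have hsq0 : (s : ℚ) ≠ 0 := by
    intro h; rw [h] at hssq; norm_num at hssq
  obtain ⟨c, hc⟩ := dist n hn0
  set g : ℕ → ℚ := fun i => Int.fract (b / κ + i / n) with hg
  have hginj : Set.InjOn g (range n : Set ℕ) := by
    intro i hi j hj hij
    rw [Finset.mem_coe, Finset.mem_range] at hi hj
    simp only [hg] at hij
    rw [Int.fract_eq_fract] at hij
    obtain ⟨z, hz⟩ := hij
    have h1 : ((i : ℤ) - j : ℤ) = z * n := by
      have : ((i : ℚ) - j) = z * n := by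
        have h0 : (i : ℚ) / n - j / n = z := by linarith
        field_simp at h0
        linarith
      exact_mod_cast this
    have h2 : z = 0 := by
      by_contra hz0
      have h3 : (n : ℤ) ≤ |(i : ℤ) - j| := by
        rw [h1, abs_mul, abs_of_nonneg (Int.natCast_nonneg n)]
        have : 1 ≤ |z| := Int.one_le_abs hz0
        nlinarith
      have h4 : |(i : ℤ) - j| < n := by
        rw [abs_lt]; constructor <;> omega
      omega
    rw [h2, zero_mul] at h1
    omega
  refine ⟨-(s * c), (range n).image g, ?_, ?_⟩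
  · intro w
    rw [Finset.mem_image]
    constructor
    · rintro ⟨i, -, rfl⟩
      refine ⟨Int.fract_nonneg _, Int.fract_lt_one _, ?_⟩
      rw [Int.fract_eq_zero_iff]
      refine ⟨κ * ⌊b / κ + i / n⌋ - s * i, ?_⟩
      have h1 : Int.fract (b / κ + i / n) = b / κ + i / n - ⌊b / κ + (i : ℚ) / n⌋ :=
        (Int.self_sub_floor _).symm
      simp only [hg]
      rw [h1]
      push_cast
      have h2 : (κ : ℚ) * (b / κ) = b := by field_simp
      have h3 : (κ : ℚ) * ((i : ℚ) / n) = s * i := by rw [hsnq]; field_simp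
      linear_combination h2 + h3
    · rintro ⟨hw0, hw1, hw⟩
      obtain ⟨J, hJ⟩ := int_of_fract hw
      set i : ℕ := ((-(s * J)) % (n : ℤ)).toNat with hi
      have hn' : (0 : ℤ) < n := by exact_mod_cast hn0
      have h0 : 0 ≤ (-(s * J)) % (n : ℤ) := Int.emod_nonneg _ hn'.ne'
      have h1 : (-(s * J)) % (n : ℤ) < n := Int.emod_lt_of_pos _ hn'
      have h2 : ((i : ℕ) : ℤ) = (-(s * J)) % (n : ℤ) := Int.toNat_of_nonneg h0
      have h3 := Int.emod_add_mul_ediv (-(s * J)) (n : ℤ)
      rw [← h2] at h3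
      have h3q : (i : ℚ) + n * (((-(s * J)) / (n : ℤ) : ℤ) : ℚ) = -(s * J) := by exact_mod_cast h3
      refine ⟨i, ?_, ?_⟩
      · rw [Finset.mem_range]; omega
      · simp only [hg]
        rw [Int.fract_eq_iff]
        refine ⟨hw0, hw1, -((-(s * J)) / (n : ℤ)), ?_⟩
        have h4 : w = b / κ - s * J / n := by
          have h5 : (κ : ℚ) * w = b - J := by linarith
          have h6 : w = (b - J) / κ := by field_simp; linarith
          rw [h6, sub_div]
          congr 1
          rw [hsnq]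
          field_simp
          rw [pow_two, hssq]; ring
        rw [h4]
        have h5 : (i : ℚ) / n + s * J / n = -(((-(s * J)) / (n : ℤ) : ℤ) : ℚ) := by
          rw [← add_div, div_eq_iff hnq]
          linarith
        push_cast at h5 ⊢
        linarith
  · intro y
    rw [Finset.sum_image hginj]
    have h1 : ∀ i ∈ range n, F (y + g i) = F ((y + b / κ) + i / n) := by
      intro i _
      apply F_congr
      refine ⟨-⌊b / κ + (i : ℚ) / n⌋, ?_⟩
      simp only [hg]
      have := Int.self_sub_floor (b / κ + (i : ℚ) / n)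
      rw [← this]
      push_cast
      ring
    rw [Finset.sum_congr rfl h1, hc (y + b / κ)]
    have h2 : F (κ * y + b) = s • F (n * (y + b / κ)) := by
      have h3 : (κ : ℚ) * y + b = s * (n * (y + b / κ)) := by
        rw [← mul_assoc, ← hsnq]
        field_simp
      rw [h3]
      rcases lt_or_gt_of_ne hκ with h | h
      · have : s = -1 := by rw [hs, if_neg (by omega)]
        rw [this, neg_smul, one_smul, ← F_neg]
        congr 1
        push_cast; ring
      · have : s = 1 := by rw [hs, if_pos h]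
        rw [this, one_smul]
        congr 1
        push_cast; ring
    rw [h2, smul_add, neg_smul, mul_smul]
    abel

open Classical in
/-- a class of parallel coordinates -/
theorem block {ι : Type} (S : Finset ι) (κ : ι → ℤ) (b : ι → ℚ) (hκ : ∀ j ∈ S, κ j ≠ 0)
    (hj : ∀ v : ℚ, (S.filter (fun j => Int.fract ((κ j : ℚ) * v + b j) = 0 ∧ 0 < κ j)).card =
      (S.filter (fun j => Int.fract ((κ j : ℚ) * v + b j) = 0 ∧ κ j < 0)).card) :
    ∃ c : ℤ, ∀ y : ℚ, ∑ j ∈ S, F (κ j * y + b j) = c • hh := by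
  have h0 : ∀ j, ∃ c : ℤ, ∃ T : Finset ℚ, j ∈ S →
    (∀ w, w ∈ T ↔ 0 ≤ w ∧ w < 1 ∧ Int.fract ((κ j : ℚ) * (-w) + b j) = 0) ∧
    ∀ y, F (κ j * y + b j) = (if 0 < κ j then (1 : ℤ) else -1) • ∑ w ∈ T, F (y + w) + c • hh := by
    intro j
    by_cases h : j ∈ S
    · obtain ⟨c, T, h1, h2⟩ := div_points (κ j) (hκ j h) (b j)
      exact ⟨c, T, fun _ => ⟨h1, h2⟩⟩
    · exact ⟨0, ∅, fun h' => absurd h' h⟩
  choose c T hT using h0
  refine ⟨∑ j ∈ S, c j, fun y => ?_⟩
  rw [Finset.sum_congr rfl (fun j hjS => (hT j hjS).2 y), Finset.sum_add_distrib, Finset.sum_smul]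
  have key : ∑ j ∈ S, (if 0 < κ j then (1 : ℤ) else -1) • ∑ w ∈ T j, F (y + w) = 0 := by
    set W : Finset ℚ := S.biUnion T with hW
    have h1 : ∀ j ∈ S, (if 0 < κ j then (1 : ℤ) else -1) • ∑ w ∈ T j, F (y + w) =
        ∑ w ∈ W, (if w ∈ T j then (if 0 < κ j then (1 : ℤ) else -1) else 0) • F (y + w) := by
      intro j hjS
      rw [Finset.smul_sum]
      have hsub : T j ⊆ W := Finset.subset_biUnion_of_mem T hjS
      rw [← Finset.sum_subset hsub (f := fun w => (if w ∈ T j then
        (if 0 < κ j then (1 : ℤ) else -1) else 0) • F (y + w))]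
      · exact Finset.sum_congr rfl fun w hw => by rw [if_pos hw]
      · intro w _ hw
        rw [if_neg hw, zero_smul]
    rw [Finset.sum_congr rfl h1, Finset.sum_comm]
    apply Finset.sum_eq_zero
    intro w hw
    rw [← Finset.sum_smul]
    have h2 : ∑ j ∈ S, (if w ∈ T j then (if 0 < κ j then (1 : ℤ) else -1) else 0) = 0 := by
      obtain ⟨j0, hj0, hwj0⟩ := Finset.mem_biUnion.1 hw
      have hw01 := ((hT j0 hj0).1 w).1 hwj0
      have h3 : ∀ j ∈ S, (if w ∈ T j then (if 0 < κ j then (1 : ℤ) else -1) else 0) =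
          (if Int.fract ((κ j : ℚ) * (-w) + b j) = 0 ∧ 0 < κ j then (1 : ℤ) else 0) -
          (if Int.fract ((κ j : ℚ) * (-w) + b j) = 0 ∧ κ j < 0 then (1 : ℤ) else 0) := by
        intro j hjS
        have h4 := (hT j hjS).1 w
        have h5 := hκ j hjS
        by_cases h6 : Int.fract ((κ j : ℚ) * (-w) + b j) = 0
        · rw [if_pos (h4.2 ⟨hw01.1, hw01.2.1, h6⟩)]
          rcases lt_or_gt_of_ne h5 with h7 | h7
          · rw [if_neg (by omega), if_neg (by rintro ⟨-, h⟩; omega), if_pos ⟨h6, h7⟩]; ring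
          · rw [if_pos (by omega), if_pos ⟨h6, h7⟩, if_neg (by rintro ⟨-, h⟩; omega)]; ring
        · rw [if_neg (fun h => h6 (h4.1 h).2.2), if_neg (fun h => h6 h.1),
            if_neg (fun h => h6 h.1)]; ring
      rw [Finset.sum_congr rfl h3, Finset.sum_sub_distrib, Finset.sum_boole, Finset.sum_boole,
        hj (-w), sub_self]
    rw [h2, zero_smul]
  rw [key, zero_add]

end Pool.Agent.helper34.DH
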