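import Pool.Agent.helper76.FV.Stmt

/-!
# Standard elements (Davenport–Hasse and norm relations) in the group `ℚ/ℤ`
-/

set_option autoImplicit false

namespace Pool.Agent.helper34.DH

open Pool.Agent.helper76.FV

/-- the group `ℚ/ℤ` -/
abbrev QZ := AddCircle (1 : ℚ)

/-- the point `1/2` of `ℚ/ℤ` -/
noncomputable def half : QZ := ((1 / 2 : ℚ) : QZ)

/-- the multiset of the points `a i / m` of `ℚ/ℤ` -/
noncomputable def pts {m k : ℕ} (a : Fin k → ZMod m) : Multiset QZ :=
  (Finset.univ : Finset (Fin k)).val.map (fun i => ((((a i).val : ℚ) / m : ℚ) : QZ))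

/-- standard elements: the pairs `(c, -c)`, the elements `(x, x + 1/p, …, x + (p-1)/p, -p x)` with
`p` an odd prime, and the elements `(x, x + 1/2, -2 x, 1/2)`, all entries being nonzero -/
inductive IsStd : Multiset QZ → Prop
  | pair (c : QZ) (hc : c ≠ 0) : IsStd {c, -c}
  | odd (p : ℕ) (hp : p.Prime) (hodd : Odd p) (x : QZ) (hx : p • x ≠ 0) :
      IsStd (-(p • x) ::ₘ (Multiset.range p).map (fun i : ℕ => x + (((i : ℚ) / p : ℚ) : QZ)))
  | two (x : QZ) (hx : 2 • x ≠ 0) : IsStd {x, x + half, -(2 • x), half}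

/-- equality of multisets up to standard elements -/
def StdEquiv (s t : Multiset QZ) : Prop :=
  ∃ S T : Multiset (Multiset QZ), (∀ u ∈ S, IsStd u) ∧ (∀ u ∈ T, IsStd u) ∧
    s + S.sum = t + T.sum

/-- a multiset as an element of the free abelian group -/
noncomputable def emb : Multiset QZ →+ (QZ →₀ ℤ) :=
  (Multiset.sumAddMonoidHom).comp (Multiset.mapAddMonoidHom (fun g => Finsupp.single g (1 : ℤ)))

theorem emb_apply (s : Multiset QZ) : emb s = (s.map (fun g => Finsupp.single g (1 : ℤ))).sum := rfl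

theorem emb_cons (g : QZ) (s : Multiset QZ) : emb (g ::ₘ s) = Finsupp.single g 1 + emb s := by
  rw [emb_apply, emb_apply, Multiset.map_cons, Multiset.sum_cons]

theorem emb_zero : emb 0 = 0 := map_zero emb

open Classical in
theorem emb_count (s : Multiset QZ) (g : QZ) : emb s g = s.count g := by
  induction s using Multiset.induction_on with
  | empty => simp [emb_zero]
  | cons a s ih =>
    rw [emb_cons, Finsupp.add_apply, ih, Multiset.count_cons, Finsupp.single_apply]
    by_cases h : a = g
    · simp [h]; ring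
    · simp [h, Ne.symm h]

theorem emb_injective {s t : Multiset QZ} (h : emb s = emb t) : s = t := by
  classical
  ext g
  have := congrArg (fun f : QZ →₀ ℤ => f g) h
  simp only [emb_count] at this
  exact_mod_cast this

/-- the subgroup generated by the standard elements -/
noncomputable def R : AddSubgroup (QZ →₀ ℤ) := AddSubgroup.closure {r | ∃ s, IsStd s ∧ r = emb s}

theorem std_mem {s : Multiset QZ} (hs : IsStd s) : emb s ∈ R :=
  AddSubgroup.subset_closure ⟨s, hs, rfl⟩

theorem mem_R {r : QZ →₀ ℤ} (h : r ∈ R) : ∃ S T : Multiset (Multiset QZ), (∀ u ∈ S, IsStd u) ∧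
    (∀ u ∈ T, IsStd u) ∧ r = emb S.sum - emb T.sum := by
  refine AddSubgroup.closure_induction (p := fun r _ => ∃ S T : Multiset (Multiset QZ),
    (∀ u ∈ S, IsStd u) ∧ (∀ u ∈ T, IsStd u) ∧ r = emb S.sum - emb T.sum) ?_ ?_ ?_ ?_ h
  · rintro _ ⟨s, hs, rfl⟩
    exact ⟨{s}, 0, by simpa using hs, by simp, by simp [emb_zero]⟩
  · exact ⟨0, 0, by simp, by simp, by simp⟩
  · rintro r r' _ _ ⟨S, T, h1, h2, rfl⟩ ⟨S', T', h3, h4, rfl⟩
    refine ⟨S + S', T + T', ?_, ?_, ?_⟩
    · intro u hu
      rcases Multiset.mem_add.1 hu with h | h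
      · exact h1 u h
      · exact h3 u h
    · intro u hu
      rcases Multiset.mem_add.1 hu with h | h
      · exact h2 u h
      · exact h4 u h
    · rw [Multiset.sum_add, Multiset.sum_add, map_add, map_add]
      abel
  · rintro r _ ⟨S, T, h1, h2, rfl⟩
    exact ⟨T, S, h2, h1, by abel⟩

theorem stdEquiv_iff (s t : Multiset QZ) : StdEquiv s t ↔ emb s - emb t ∈ R := by
  constructor
  · rintro ⟨S, T, hS, hT, h⟩
    have h1 : ∀ S : Multiset (Multiset QZ), (∀ u ∈ S, IsStd u) → emb S.sum ∈ R := by
      intro S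
      induction S using Multiset.induction_on with
      | empty => intro _; simp
      | cons a S ih =>
        intro h
        rw [Multiset.sum_cons, map_add]
        exact R.add_mem (std_mem (h a (by simp))) (ih fun u hu => h u (by simp [hu]))
    have h2 := congrArg emb h
    rw [map_add, map_add] at h2
    have h3 : emb s - emb t = emb T.sum - emb S.sum := by
      rw [sub_eq_sub_iff_add_eq_add, h2, add_comm]
    rw [h3]
    exact R.sub_mem (h1 T hT) (h1 S hS)
  · intro h
    obtain ⟨S, T, hS, hT, h1⟩ := mem_R h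
    refine ⟨T, S, hT, hS, ?_⟩
    apply emb_injective
    rw [map_add, map_add, ← sub_eq_zero]
    have : emb s + emb T.sum - (emb t + emb S.sum) = (emb s - emb t) - (emb S.sum - emb T.sum) := by
      abel
    rw [this, h1, sub_self]

end Pool.Agent.helper34.DH
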