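import Pool.Agent.helper34.DH.Block

/-!
# Pure families modulo standard elements
-/

set_option autoImplicit false

namespace Pool.Agent.helper34.DH

open Finset Pool.Agent.helper76.FV

theorem neg_iff_left {a b : ℚ} (ha : 0 < a) : a * b < 0 ↔ b < 0 := by
  constructor
  · intro h
    by_contra hc
    exact absurd (mul_nonneg ha.le (not_lt.1 hc)) (not_le.2 h)
  · exact mul_neg_of_pos_of_neg ha

theorem neg_iff_right {a b : ℚ} (hb : 0 < b) : a * b < 0 ↔ a < 0 := by
  rw [mul_comm]; exact neg_iff_left hb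

/-- wall with prescribed value -/
theorem wall' {k : ℕ} (H : Fam k) (i : Fin k) (hi : H.A i ≠ 0) (q : ℚ) :
    ∃ v : Fin H.d → ℚ, ∑ l, (H.A i l : ℚ) * v l = q ∧
      ∀ j, H.A j ≠ 0 → ¬ Par (H.A j) (H.A i) →
        Int.fract (∑ l, (H.A j l : ℚ) * v l + H.b j) ≠ 0 := by
  obtain ⟨v, hv1, hv2⟩ := wall (⟨H.d, H.A, Function.update H.b i (-q)⟩ : Fam k) i hi 0
  refine ⟨v, ?_, ?_⟩
  · simp only [Function.update_self] at hv1
    push_cast at hv1
    linarith
  · intro j hj hpar
    have h1 := hv2 j hj hpar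
    have hji : j ≠ i := by
      rintro rfl
      exact hpar (CL_refl _)
    simp only [Function.update_of_ne hji] at h1
    exact h1

open Classical in
/-- one class of parallel rows -/
theorem cls {k : ℕ} (H : Fam k) (hp : H.Pure) (hz : ∀ j, H.A j = 0 → Int.fract (H.b j) ≠ 0)
    (i : Fin k) (hi : H.A i ≠ 0) :
    ∃ c : ℤ, ∀ u : Fin H.d → ℚ, ∑ j ∈ univ.filter (fun j => Par (H.A j) (H.A i)),
      F (∑ l, (H.A j l : ℚ) * u l + H.b j) = c • hh := by
  set S : Finset (Fin k) := univ.filter (fun j => Par (H.A j) (H.A i)) with hS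
  have hSmem : ∀ j, j ∈ S ↔ Par (H.A j) (H.A i) := by intro j; rw [hS]; simp
  have hN := WP_sq_pos (H.A i) hi
  -- ratios
  have hr : ∀ j, ∃ r : ℚ, j ∈ S → r ≠ 0 ∧ ∀ l, (H.A j l : ℚ) = r * H.A i l := by
    intro j
    by_cases hj : j ∈ S
    · obtain ⟨p, q, hp0, hq0, h⟩ := (hSmem j).1 hj
      have hp0' : (p : ℚ) ≠ 0 := by exact_mod_cast hp0
      have hq0' : (q : ℚ) ≠ 0 := by exact_mod_cast hq0
      refine ⟨q / p, fun _ => ⟨div_ne_zero hq0' hp0', fun l => ?_⟩⟩
      have h' : (p : ℚ) * H.A j l = q * H.A i l := by exact_mod_cast h l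
      rw [div_mul_eq_mul_div, eq_div_iff hp0']
      linarith
    · exact ⟨0, fun h => absurd h hj⟩
  choose r hr using hr
  set D : ℕ := ∏ j, (r j).den with hD
  have hD0 : 0 < D := Finset.prod_pos fun j _ => (r j).den_pos
  have hDq : (0 : ℚ) < D := by exact_mod_cast hD0
  have hκ : ∀ j, ∃ κ : ℤ, (κ : ℚ) = D * r j := by
    intro j
    obtain ⟨n, hn⟩ := FA_int_of_dvd (r j) (D : ℤ)
      (Int.natCast_dvd_natCast.2 (Finset.dvd_prod_of_mem _ (mem_univ j)))
    exact ⟨n, by rw [← hn]; push_cast; ring⟩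
  choose κ hκ using hκ
  have hdot : ∀ j ∈ S, ∀ u : Fin H.d → ℚ, ∑ l, (H.A j l : ℚ) * u l =
      κ j * ((∑ l, (H.A i l : ℚ) * u l) / D) := by
    intro j hj u
    rw [hκ j]
    have h1 : ∑ l, (H.A j l : ℚ) * u l = r j * ∑ l, (H.A i l : ℚ) * u l := by
      rw [Finset.mul_sum]
      exact Finset.sum_congr rfl fun l _ => by rw [(hr j hj).2 l]; ring
    rw [h1]
    field_simp
  have hsign : ∀ j ∈ S, (0 < κ j ↔ 0 < r j) ∧ (κ j < 0 ↔ r j < 0) := by
    intro j _
    constructor
    · rw [← Int.cast_pos (R := ℚ), hκ j]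
      exact mul_pos_iff_of_pos_left hDq
    · rw [← Int.cast_lt_zero (R := ℚ), hκ j]
      exact neg_iff_left hDq
  obtain ⟨c, hc⟩ := block S κ H.b (by
    intro j hj h0
    have h1 := hκ j
    rw [h0] at h1
    push_cast at h1
    rcases mul_eq_zero.1 h1.symm with h | h
    · exact hDq.ne' h
    · exact (hr j hj).1 h) (by
    intro v
    obtain ⟨v0, hv1, hv2⟩ := wall' H i hi (D * v)
    have hval : ∀ j ∈ S, ∑ l, (H.A j l : ℚ) * v0 l + H.b j = κ j * v + H.b j := by
      intro j hj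
      rw [hdot j hj v0, hv1]
      congr 2
      field_simp
    have hdotw : ∀ j ∈ S, ∑ l, (H.A j l : ℚ) * (H.A i l : ℚ) =
        r j * ∑ l, (H.A i l : ℚ) * (H.A i l : ℚ) := by
      intro j hj
      rw [Finset.mul_sum]
      exact Finset.sum_congr rfl fun l _ => by rw [(hr j hj).2 l]; ring
    have hmemS : ∀ j, Int.fract (∑ l, (H.A j l : ℚ) * v0 l + H.b j) = 0 → j ∈ S := by
      intro j hj
      rw [hSmem]
      by_contra hcon
      by_cases h0 : H.A j = 0
      · apply hz j h0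
        rw [← hj, h0]
        congr 1
        simp
      · exact hv2 j h0 hcon hj
    have hj := jump H hp v0 (fun l => (H.A i l : ℚ)) (by
      intro j hj h0
      have hjS := hmemS j hj
      rw [hdotw j hjS] at h0
      rcases mul_eq_zero.1 h0 with h | h
      · exact (hr j hjS).1 h
      · exact hN.ne' h)
    have e1 : univ.filter (fun j => Int.fract (∑ l, (H.A j l : ℚ) * v0 l + H.b j) = 0 ∧
        0 < ∑ l, (H.A j l : ℚ) * (H.A i l : ℚ)) =
        S.filter (fun j => Int.fract ((κ j : ℚ) * v + H.b j) = 0 ∧ 0 < κ j) := by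
      ext j
      rw [Finset.mem_filter, Finset.mem_filter]
      constructor
      · rintro ⟨-, h1, h2⟩
        have hjS := hmemS j h1
        rw [hdotw j hjS, mul_pos_iff_of_pos_right hN] at h2
        rw [hval j hjS] at h1
        exact ⟨hjS, h1, ((hsign j hjS).1).2 h2⟩
      · rintro ⟨hjS, h1, h2⟩
        rw [← hval j hjS] at h1
        refine ⟨Finset.mem_univ _, h1, ?_⟩
        rw [hdotw j hjS, mul_pos_iff_of_pos_right hN]
        exact ((hsign j hjS).1).1 h2
    have e2 : univ.filter (fun j => Int.fract (∑ l, (H.A j l : ℚ) * v0 l + H.b j) = 0 ∧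
        ∑ l, (H.A j l : ℚ) * (H.A i l : ℚ) < 0) =
        S.filter (fun j => Int.fract ((κ j : ℚ) * v + H.b j) = 0 ∧ κ j < 0) := by
      ext j
      rw [Finset.mem_filter, Finset.mem_filter]
      constructor
      · rintro ⟨-, h1, h2⟩
        have hjS := hmemS j h1
        rw [hdotw j hjS, neg_iff_right hN] at h2
        rw [hval j hjS] at h1
        exact ⟨hjS, h1, ((hsign j hjS).2).2 h2⟩
      · rintro ⟨hjS, h1, h2⟩
        rw [← hval j hjS] at h1
        refine ⟨Finset.mem_univ _, h1, ?_⟩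
        rw [hdotw j hjS, neg_iff_right hN]
        exact ((hsign j hjS).2).1 h2
    rw [← e1, ← e2]
    exact hj)
  refine ⟨c, fun u => ?_⟩
  rw [← hc ((∑ l, (H.A i l : ℚ) * u l) / D)]
  exact Finset.sum_congr rfl fun j hj => by rw [hdot j hj u]

/-- a pure family modulo standard elements -/
theorem reduce {k : ℕ} (H : Fam k) (hp : H.Pure)
    (hne : ∃ x, H.Mem x ∧ ∀ i, Int.fract (x i) ≠ 0) :
    ∃ Z R : Finset (Fin k), ∃ c : ℤ, (∀ j, j ∈ Z ↔ H.A j = 0) ∧ Z.card + 2 * R.card ≤ k ∧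
      (∀ j, H.A j = 0 ∨ ∃ i ∈ R, Par (H.A j) (H.A i)) ∧
      ∀ x, H.Mem x → ∑ j, F (x j) = ∑ j ∈ Z, F (H.b j) + c • hh := by
  classical
  have hz : ∀ j, H.A j = 0 → Int.fract (H.b j) ≠ 0 := by
    intro j hj h0
    obtain ⟨x, ⟨u, hu⟩, hx⟩ := hne
    obtain ⟨n, hn⟩ := hu j
    apply hx j
    rw [hn, hj, Int.fract_add_intCast]
    simp only [Pi.zero_apply, Int.cast_zero, zero_mul, Finset.sum_const_zero, zero_add]
    exact h0
  set Z : Finset (Fin k) := univ.filter (fun j => H.A j = 0) with hZ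
  have hZmem : ∀ j, j ∈ Z ↔ H.A j = 0 := by intro j; rw [hZ]; simp
  set R : Finset (Fin k) :=
    univ.filter (fun i => H.A i ≠ 0 ∧ ∀ j, j < i → ¬ Par (H.A j) (H.A i)) with hR
  have hRmem : ∀ i, i ∈ R ↔ (H.A i ≠ 0 ∧ ∀ j, j < i → ¬ Par (H.A j) (H.A i)) := by
    intro i; rw [hR]; simp
  have hrep : ∀ j, H.A j ≠ 0 → ∃ i ∈ R, Par (H.A j) (H.A i) := by
    intro j hj
    set S : Finset (Fin k) := univ.filter (fun i => Par (H.A i) (H.A j)) with hS
    have hSmem : ∀ i, i ∈ S ↔ Par (H.A i) (H.A j) := by intro i; rw [hS]; simp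
    have hSne : S.Nonempty := ⟨j, (hSmem j).2 (CL_refl _)⟩
    have hmin := S.min'_mem hSne
    have hmin' : Par (H.A (S.min' hSne)) (H.A j) := (hSmem _).1 hmin
    refine ⟨S.min' hSne, ?_, CL_symm hmin'⟩
    rw [hRmem]
    refine ⟨CL_ne (CL_symm hmin') hj, fun j' hj' hc => ?_⟩
    have : j' ∈ S := (hSmem _).2 (CL_trans hc hmin')
    exact absurd (S.min'_le j' this) (not_le.2 hj')
  have hReq : ∀ i ∈ R, ∀ i' ∈ R, Par (H.A i) (H.A i') → i = i' := by
    intro i hi i' hi' hpar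
    rcases lt_trichotomy i i' with h | h | h
    · exact absurd hpar (((hRmem i').1 hi').2 i h)
    · exact h
    · exact absurd (CL_symm hpar) (((hRmem i).1 hi).2 i' h)
  have hpart : ∀ i, ∃ j, H.A i ≠ 0 → j ≠ i ∧ Par (H.A j) (H.A i) := by
    intro i
    by_cases hi : H.A i ≠ 0
    · obtain ⟨j, h1, h2, -⟩ := CL_partner H hp hz i hi 0
      exact ⟨j, fun _ => ⟨h1, h2⟩⟩
    · exact ⟨i, fun h => absurd h hi⟩
  choose φ hφ using hpart
  have hφR : ∀ i ∈ R, φ i ∉ R := by
    intro i hi hc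
    have h1 := hφ i ((hRmem i).1 hi).1
    exact h1.1 (hReq _ hc _ hi h1.2)
  have hφinj : Set.InjOn φ R := by
    intro i hi i' hi' h
    have h1 := hφ i ((hRmem i).1 hi).1
    have h2 := hφ i' ((hRmem i').1 hi').1
    rw [h] at h1
    exact hReq i hi i' hi' (CL_trans (CL_symm h1.2) h2.2)
  have hcard : Z.card + 2 * R.card ≤ k := by
    have hsub : Z ∪ (R ∪ R.image φ) ⊆ univ := Finset.subset_univ _
    have h1 := Finset.card_le_card hsub
    rw [Finset.card_univ, Fintype.card_fin, Finset.card_union_of_disjoint,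
      Finset.card_union_of_disjoint, Finset.card_image_of_injOn hφinj] at h1
    · omega
    · rw [Finset.disjoint_left]
      intro j hj hj'
      obtain ⟨i, hi, rfl⟩ := Finset.mem_image.1 hj'
      exact hφR i hi hj
    · rw [Finset.disjoint_left]
      intro j hj hj'
      rw [hZmem] at hj
      rcases Finset.mem_union.1 hj' with h | h
      · exact ((hRmem j).1 h).1 hj
      · obtain ⟨i, hi, rfl⟩ := Finset.mem_image.1 h
        have h2 := ((hRmem i).1 hi).1
        exact CL_ne (CL_symm (hφ i h2).2) h2 hj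
  have hcl : ∀ i, ∃ c : ℤ, i ∈ R → ∀ u : Fin H.d → ℚ,
      ∑ j ∈ univ.filter (fun j => Par (H.A j) (H.A i)),
        F (∑ l, (H.A j l : ℚ) * u l + H.b j) = c • hh := by
    intro i
    by_cases hi : i ∈ R
    · obtain ⟨c, hc⟩ := cls H hp hz i ((hRmem i).1 hi).1
      exact ⟨c, fun _ => hc⟩
    · exact ⟨0, fun h => absurd h hi⟩
  choose c hc using hcl
  refine ⟨Z, R, ∑ i ∈ R, c i, hZmem, hcard, fun j => ?_, fun x hx => ?_⟩
  · by_cases hj : H.A j = 0
    · exact Or.inl hj
    · exact Or.inr (hrep j hj)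
  · obtain ⟨u, hu⟩ := hx
    have h1 : ∀ j, F (x j) = F (∑ l, (H.A j l : ℚ) * u l + H.b j) := fun j => F_congr (hu j)
    simp_rw [h1]
    rw [← Finset.sum_filter_add_sum_filter_not univ (fun j => H.A j = 0), ← hZ]
    congr 1
    · refine Finset.sum_congr rfl fun j hj => ?_
      rw [(hZmem j).1 hj]
      congr 1
      simp
    · rw [Finset.sum_smul]
      have h2 : ∀ i ∈ R, c i • hh = ∑ j ∈ univ.filter (fun j => Par (H.A j) (H.A i)),
          F (∑ l, (H.A j l : ℚ) * u l + H.b j) := fun i hi => (hc i hi u).symm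
      rw [Finset.sum_congr rfl h2]
      rw [← Finset.sum_biUnion]
      · refine Finset.sum_congr ?_ fun _ _ => rfl
        ext j
        rw [Finset.mem_filter, Finset.mem_biUnion]
        constructor
        · rintro ⟨-, hj⟩
          obtain ⟨i, hi, hpar⟩ := hrep j hj
          exact ⟨i, hi, Finset.mem_filter.2 ⟨Finset.mem_univ _, hpar⟩⟩
        · rintro ⟨i, hi, hj⟩
          rw [Finset.mem_filter] at hj
          refine ⟨Finset.mem_univ _, fun h0 => ?_⟩
          exact CL_ne (CL_symm hj.2) ((hRmem i).1 hi).1 h0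
      · intro i hi i' hi' hne'
        rw [Function.onFun, Finset.disjoint_left]
        intro j hj hj'
        rw [Finset.mem_filter] at hj hj'
        exact hne' (hReq i hi i' hi' (CL_trans (CL_symm hj.2) hj'.2))

end Pool.Agent.helper34.DH
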