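import Pool.Agent.helper34.DH.Fam

/-!
# The Tate condition is invariant under standard elements
-/

set_option autoImplicit false

namespace Pool.Agent.helper34.DH

open Finset Pool.Agent.helper76.FV

/-- fractional part on `ℚ/ℤ` -/
noncomputable def fr (g : QZ) : ℚ := Int.fract (Quotient.out g : ℚ)

theorem fr_coe (x : ℚ) : fr (x : QZ) = Int.fract x := by
  unfold fr
  have h : ((Quotient.out (x : QZ) : ℚ) : QZ) = (x : QZ) := Quotient.out_eq _
  have h2 : (((Quotient.out (x : QZ) : ℚ) - x : ℚ) : QZ) = 0 := by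
    rw [AddCircle.coe_sub, h, sub_self]
  rw [coe_eq_zero_iff] at h2
  obtain ⟨n, hn⟩ := int_of_fract h2
  exact FA_fract_congr ⟨n, by linarith⟩

/-- the weight -/
noncomputable def wt (t : ℤ) : (QZ →₀ ℤ) →+ ℚ :=
  Finsupp.liftAddHom (fun g => (zmultiplesHom ℚ) (fr (t • g) - 1 / 2))

theorem wt_single (t : ℤ) (g : QZ) : wt t (Finsupp.single g 1) = fr (t • g) - 1 / 2 := by
  unfold wt
  simp

theorem wt_emb (t : ℤ) (s : Multiset QZ) :
    wt t (emb s) = (s.map (fun g => fr (t • g) - 1 / 2)).sum := by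
  induction s using Multiset.induction_on with
  | empty => simp [emb_zero]
  | cons a s ih => rw [emb_cons, map_add, ih, wt_single, Multiset.map_cons, Multiset.sum_cons]

theorem fract_neg' {x : ℚ} (h : Int.fract x ≠ 0) : Int.fract (-x) = 1 - Int.fract x :=
  Int.fract_neg h

/-- Hermite's identity, twisted by a unit -/
theorem hermite (n : ℕ) (hn : 0 < n) (t : ℤ) (ht : IsCoprime t (n : ℤ)) (y : ℚ) :
    ∑ i ∈ range n, Int.fract (y + (t : ℚ) * (i / n)) = Int.fract (n * y) + ((n : ℚ) - 1) / 2 := by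
  have : NeZero n := ⟨hn.ne'⟩
  have hnq : (n : ℚ) ≠ 0 := by exact_mod_cast hn.ne'
  have hnpos : (0 : ℚ) < n := by exact_mod_cast hn
  set s : ℤ := ⌊(n : ℚ) * y⌋ with hs
  set θ : ℚ := Int.fract ((n : ℚ) * y) with hθ
  have hy : (n : ℚ) * y = s + θ := (Int.floor_add_fract _).symm
  have hy' : y = (s + θ) / n := by rw [← hy]; field_simp
  have h1 : ∀ i ∈ range n, Int.fract (y + (t : ℚ) * (i / n)) =
      (((s : ZMod n) + (t : ZMod n) * (i : ZMod n)).val : ℚ) / n + θ / n := by
    intro i _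
    rw [Int.fract_eq_iff]
    have hv : (((s : ZMod n) + (t : ZMod n) * (i : ZMod n)).val : ℚ) ≤ n - 1 := by
      have := ZMod.val_lt ((s : ZMod n) + (t : ZMod n) * (i : ZMod n))
      have h2 : (((s : ZMod n) + (t : ZMod n) * (i : ZMod n)).val + 1 : ℕ) ≤ n := this
      have h3 : ((((s : ZMod n) + (t : ZMod n) * (i : ZMod n)).val + 1 : ℕ) : ℚ) ≤ n := by
        exact_mod_cast h2
      push_cast at h3
      linarith
    have hθ0 : 0 ≤ θ := Int.fract_nonneg _
    have hθ1 : θ < 1 := Int.fract_lt_one _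
    refine ⟨by positivity, ?_, (s + t * i) / n, ?_⟩
    · rw [← add_div, div_lt_one hnpos]
      linarith
    · have h2 : (((s : ZMod n) + (t : ZMod n) * (i : ZMod n)).val : ℤ) = (s + t * i) % n := by
        rw [show (s : ZMod n) + (t : ZMod n) * (i : ZMod n) = ((s + t * i : ℤ) : ZMod n) by
          push_cast; ring, ZMod.val_intCast]
      have h3 : ((((s : ZMod n) + (t : ZMod n) * (i : ZMod n)).val : ℕ) : ℚ) =
          (((s + t * i) % n : ℤ) : ℚ) := by
        rw [← h2]; simp
      rw [h3]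
      have h4 := Int.emod_add_mul_ediv (s + t * i) n
      have h5 : (((s + t * i) % n : ℤ) : ℚ) + n * (((s + t * i) / n : ℤ) : ℚ) = s + t * i := by
        exact_mod_cast h4
      rw [hy']
      field_simp
      linarith
  rw [Finset.sum_congr rfl h1, Finset.sum_add_distrib, Finset.sum_const, Finset.card_range,
    nsmul_eq_mul, mul_div_cancel₀ _ hnq, ← Finset.sum_div]
  have h2 : ∑ i ∈ range n, (((s : ZMod n) + (t : ZMod n) * (i : ZMod n)).val : ℚ) =
      ∑ c : ZMod n, (c.val : ℚ) := by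
    refine Finset.sum_bij (fun i _ => (s : ZMod n) + (t : ZMod n) * (i : ZMod n))
      (fun _ _ => Finset.mem_univ _) ?_ ?_ ?_
    · intro i hi j hj hij
      rw [Finset.mem_range] at hi hj
      have h3 := add_left_cancel hij
      have hu : IsUnit (t : ZMod n) := (ZMod.unitOfIsCoprime t ht).isUnit
      have h4 := hu.mul_left_cancel h3
      have := (ZMod.natCast_eq_natCast_iff' i j n).1 h4
      rwa [Nat.mod_eq_of_lt hi, Nat.mod_eq_of_lt hj] at this
    · intro c _
      set u : ZMod n := ((ZMod.unitOfIsCoprime t ht)⁻¹ : (ZMod n)ˣ) * (c - s) with hu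
      refine ⟨u.val, Finset.mem_range.2 (ZMod.val_lt u), ?_⟩
      rw [ZMod.natCast_zmod_val, hu, ← mul_assoc]
      have : (t : ZMod n) * ((ZMod.unitOfIsCoprime t ht)⁻¹ : (ZMod n)ˣ) = 1 := by
        rw [← ZMod.coe_unitOfIsCoprime t ht]
        exact Units.mul_inv _
      rw [this]; ring
    · intro i _; rfl
  have h3 : ∑ c : ZMod n, (c.val : ℚ) = ∑ i ∈ range n, (i : ℚ) := by
    symm
    refine Finset.sum_bij (fun (i : ℕ) _ => (i : ZMod n)) (fun _ _ => Finset.mem_univ _) ?_ ?_ ?_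
    · intro i hi j hj hij
      rw [Finset.mem_range] at hi hj
      have := (ZMod.natCast_eq_natCast_iff' i j n).1 hij
      rwa [Nat.mod_eq_of_lt hi, Nat.mod_eq_of_lt hj] at this
    · intro c _
      exact ⟨c.val, Finset.mem_range.2 (ZMod.val_lt c), ZMod.natCast_zmod_val c⟩
    · intro i hi
      rw [Finset.mem_range] at hi
      rw [ZMod.val_natCast_of_lt hi]
  rw [h2, h3]
  have h4 : ∀ n : ℕ, ∑ i ∈ range n, (i : ℚ) = n * (n - 1) / 2 := by
    intro n
    induction n with
    | zero => simp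
    | succ n ih => rw [Finset.sum_range_succ, ih]; push_cast; ring
  rw [h4]
  field_simp
  ring

theorem fr_smul (t : ℤ) (x : ℚ) : fr (t • (x : QZ)) = Int.fract ((t : ℚ) * x) := by
  rw [← AddCircle.coe_zsmul, fr_coe, zsmul_eq_mul]

theorem fr_smul_neg {t : ℤ} {x : ℚ} (h : Int.fract ((t : ℚ) * x) ≠ 0) :
    fr (t • (-(x : QZ))) = 1 - Int.fract ((t : ℚ) * x) := by
  rw [← AddCircle.coe_neg, fr_smul, mul_neg, fract_neg' h]

theorem den_nat_mul (n : ℕ) (q : ℚ) : ((n : ℚ) * q).den ∣ q.den := by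
  obtain ⟨c, hc⟩ := int_of_den_dvd q q.den dvd_rfl
  refine den_dvd_of_int _ _ q.den_pos (n * c) ?_
  push_cast
  rw [← hc]; ring

/-- weights vanish on `R` -/
theorem wt_R (r : QZ →₀ ℤ) (hr : r ∈ R) :
    ∃ M : ℕ, 0 < M ∧ ∀ t : ℤ, IsCoprime t (M : ℤ) → wt t r = 0 := by
  refine AddSubgroup.closure_induction (p := fun r _ => ∃ M : ℕ, 0 < M ∧
    ∀ t : ℤ, IsCoprime t (M : ℤ) → wt t r = 0) ?_ ?_ ?_ ?_ hr
  · rintro _ ⟨s, hs, rfl⟩
    cases hs with
    | pair c hc =>
      obtain ⟨q, rfl⟩ := QuotientAddGroup.mk_surjective c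
      have hq : Int.fract q ≠ 0 := fun h => hc ((coe_eq_zero_iff q).2 h)
      refine ⟨q.den, q.den_pos, fun t ht => ?_⟩
      have h1 := FA_fract_ne hq ht
      rw [wt_emb]
      simp only [Multiset.insert_eq_cons, Multiset.map_cons, Multiset.map_singleton,
        Multiset.sum_cons, Multiset.sum_singleton]
      have h2 : fr (t • (q : QZ)) = Int.fract ((t : ℚ) * q) := fr_smul t q
      have h3 : fr (t • (-(q : QZ))) = 1 - Int.fract ((t : ℚ) * q) := fr_smul_neg h1
      erw [h2, h3]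
      ring
    | odd p hp hodd x hx =>
      obtain ⟨q, rfl⟩ := QuotientAddGroup.mk_surjective x
      have hx' : p • (q : QZ) ≠ 0 := hx
      rw [← AddCircle.coe_nsmul, Ne, coe_eq_zero_iff, nsmul_eq_mul] at hx'
      refine ⟨p * q.den, Nat.mul_pos hp.pos q.den_pos, fun t ht => ?_⟩
      push_cast at ht
      have htp : IsCoprime t (p : ℤ) := ht.of_mul_right_left
      have htq : IsCoprime t (q.den : ℤ) := ht.of_mul_right_right
      have htpq : IsCoprime t (((p : ℚ) * q).den : ℤ) :=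
        htq.of_isCoprime_of_dvd_right (Int.natCast_dvd_natCast.2 (den_nat_mul p q))
      have h1 := FA_fract_ne hx' htpq
      rw [wt_emb, Multiset.map_cons, Multiset.sum_cons, Multiset.map_map]
      have h2 : fr (t • (-(p • (q : QZ)))) = 1 - Int.fract ((t : ℚ) * (p * q)) := by
        rw [← AddCircle.coe_nsmul, nsmul_eq_mul]
        exact fr_smul_neg h1
      have h3 : ((Multiset.range p).map ((fun g => fr (t • g) - 1 / 2) ∘
          fun i : ℕ => (q : QZ) + (((i : ℚ) / p : ℚ) : QZ))).sum =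
          ∑ i ∈ range p, (Int.fract ((t : ℚ) * q + (t : ℚ) * (i / p)) - 1 / 2) := by
        rw [Finset.sum, Finset.range_val]
        congr 1
        apply Multiset.map_congr rfl
        intro i _
        simp only [Function.comp]
        rw [← AddCircle.coe_add, fr_smul, mul_add]
      erw [h2, h3]
      rw [Finset.sum_sub_distrib, hermite p hp.pos t htp, Finset.sum_const, Finset.card_range,
        nsmul_eq_mul, show (p : ℚ) * ((t : ℚ) * q) = (t : ℚ) * (p * q) by ring]
      ring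
    | two x hx =>
      obtain ⟨q, rfl⟩ := QuotientAddGroup.mk_surjective x
      have hx' : 2 • (q : QZ) ≠ 0 := hx
      rw [← AddCircle.coe_nsmul, Ne, coe_eq_zero_iff, nsmul_eq_mul] at hx'
      refine ⟨2 * q.den, Nat.mul_pos (by norm_num) q.den_pos, fun t ht => ?_⟩
      push_cast at ht
      have htp : IsCoprime t ((2 : ℕ) : ℤ) := ht.of_mul_right_left
      have htq : IsCoprime t (q.den : ℤ) := ht.of_mul_right_right
      have htpq : IsCoprime t ((((2 : ℕ) : ℚ) * q).den : ℤ) :=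
        htq.of_isCoprime_of_dvd_right (Int.natCast_dvd_natCast.2 (den_nat_mul 2 q))
      have h1 := FA_fract_ne hx' htpq
      have h0 := hermite 2 (by norm_num) t htp ((t : ℚ) * q)
      rw [Finset.sum_range_succ, Finset.sum_range_succ, Finset.sum_range_zero] at h0
      rw [wt_emb]
      simp only [Multiset.insert_eq_cons, Multiset.map_cons, Multiset.map_singleton,
        Multiset.sum_cons, Multiset.sum_singleton]
      have e1 : fr (t • (q : QZ)) = Int.fract ((t : ℚ) * q) := fr_smul t q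
      have e2 : fr (t • ((q : QZ) + half)) = Int.fract ((t : ℚ) * q + (t : ℚ) * (1 / 2)) := by
        unfold half
        rw [← AddCircle.coe_add, fr_smul, mul_add]
      have e3 : fr (t • (-(2 • (q : QZ)))) = 1 - Int.fract ((t : ℚ) * ((2 : ℕ) * q)) := by
        rw [← AddCircle.coe_nsmul, nsmul_eq_mul]
        exact fr_smul_neg h1
      have e4 : fr (t • half) = 1 / 2 := by
        unfold half
        rw [fr_smul]
        have hodd : Odd t := by
          rw [Int.isCoprime_iff_gcd_eq_one] at htp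
          by_contra hc
          rw [Int.not_odd_iff_even] at hc
          obtain ⟨c, hc⟩ := hc
          have : (2 : ℤ) ∣ Int.gcd t ((2 : ℕ) : ℤ) :=
            Int.dvd_coe_gcd ⟨c, by rw [hc]; ring⟩ (by norm_num)
          rw [htp] at this
          norm_num at this
        obtain ⟨c, hc⟩ := hodd
        rw [hc, Int.fract_eq_iff]
        refine ⟨by norm_num, by norm_num, c, ?_⟩
        push_cast; ring
      erw [e1, e2, e3, e4]
      have e5 : (t : ℚ) * q + (t : ℚ) * (((0 : ℕ) : ℚ) / ((2 : ℕ) : ℚ)) = (t : ℚ) * q := by simp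
      have e6 : (t : ℚ) * (((1 : ℕ) : ℚ) / ((2 : ℕ) : ℚ)) = (t : ℚ) * (1 / 2) := by norm_num
      have e7 : ((2 : ℕ) : ℚ) * ((t : ℚ) * q) = (t : ℚ) * ((2 : ℕ) * q) := by ring
      rw [e5, e6, e7] at h0
      push_cast at h0 ⊢
      linarith
  · exact ⟨1, one_pos, fun t _ => by simp⟩
  · rintro r r' _ _ ⟨M, hM, h⟩ ⟨M', hM', h'⟩
    refine ⟨M * M', Nat.mul_pos hM hM', fun t ht => ?_⟩
    push_cast at ht
    rw [map_add, h t ht.of_mul_right_left, h' t ht.of_mul_right_right, add_zero]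
  · rintro r _ ⟨M, hM, h⟩
    exact ⟨M, hM, fun t ht => by rw [map_neg, h t ht, neg_zero]⟩

/-- points of a rational vector -/
noncomputable def ptsQ {k : ℕ} (x : Fin k → ℚ) : Multiset QZ :=
  (Finset.univ : Finset (Fin k)).val.map (fun i => ((x i : ℚ) : QZ))

theorem wt_ptsQ {k : ℕ} (t : ℤ) (x : Fin k → ℚ) :
    wt t (emb (ptsQ x)) = ∑ i, Int.fract ((t : ℚ) * x i) - (k : ℚ) / 2 := by
  rw [wt_emb, ptsQ, Multiset.map_map]
  have : ((Finset.univ : Finset (Fin k)).val.map ((fun g => fr (t • g) - 1 / 2) ∘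
      fun i => ((x i : ℚ) : QZ))).sum = ∑ i, (Int.fract ((t : ℚ) * x i) - 1 / 2) := by
    rw [Finset.sum]
    congr 1
    apply Multiset.map_congr rfl
    intro i _
    simp only [Function.comp]
    rw [fr_smul]
  rw [this, Finset.sum_sub_distrib, Finset.sum_const, Finset.card_univ, Fintype.card_fin,
    nsmul_eq_mul]
  ring

/-- the Tate condition is invariant -/
theorem tate_transfer {k l : ℕ} (x : Fin k → ℚ) (z : Fin l → ℚ)
    (hz : ∀ i, Int.fract (z i) ≠ 0) (h : emb (ptsQ x) - emb (ptsQ z) ∈ R) (hx : Tate x) :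
    Tate z := by
  refine ⟨hz, fun t ht => ?_⟩
  obtain ⟨M, hM, hMt⟩ := wt_R _ h
  set Q : ℕ := ∏ i, (z i).den with hQ
  have hQ0 : 0 < Q := Finset.prod_pos fun i _ => (z i).den_pos
  set M' : ℕ := M * ∏ i, (x i).den with hM'
  have hM'0 : 0 < M' := Nat.mul_pos hM (Finset.prod_pos fun i _ => (x i).den_pos)
  have hcop : IsCoprime t (Q : ℤ) := by
    have : (Q : ℤ) = ∏ i, ((z i).den : ℤ) := by simp [Q]
    rw [this]
    exact IsCoprime.prod_right fun i _ => ht i
  obtain ⟨t', ht', hdiv⟩ := exists_lift Q M' hQ0 hM'0 t hcop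
  have h1 : ∀ i, Int.fract ((t : ℚ) * z i) = Int.fract ((t' : ℚ) * z i) := by
    intro i
    apply FA_fract_congr
    have h2 : ((z i).den : ℤ) ∣ t' - t := (Int.natCast_dvd_natCast.2
      (Finset.dvd_prod_of_mem (fun i => (z i).den) (mem_univ i))).trans hdiv
    obtain ⟨n, hn⟩ := FA_int_of_dvd (z i) (t' - t) h2
    refine ⟨-n, ?_⟩
    push_cast at hn ⊢
    linarith
  have h2 : wt t' (emb (ptsQ x)) = 0 := by
    rw [wt_ptsQ, hx.2 t', sub_self]
    intro i
    refine ht'.of_isCoprime_of_dvd_right (Int.natCast_dvd_natCast.2 ?_)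
    exact dvd_mul_of_dvd_right (Finset.dvd_prod_of_mem (fun i => (x i).den) (mem_univ i)) _
  have h3 := hMt t' (ht'.of_isCoprime_of_dvd_right
    (Int.natCast_dvd_natCast.2 (dvd_mul_right _ _)))
  rw [map_sub, h2, wt_ptsQ] at h3
  rw [Finset.sum_congr rfl fun i _ => h1 i]
  linarith

end Pool.Agent.helper34.DH
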