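import Pool.Agent.helper34.DH.Inv
import Pool.Agent.helper76.FV.Defs2

/-!
# Bounded level modulo standard elements
-/

set_option autoImplicit false

namespace Pool.Agent.helper34.DH

open Finset Pool.Agent.helper76.FV

/-- degree -/
noncomputable def deg : (QZ →₀ ℤ) →+ ℤ := Finsupp.liftAddHom (fun _ => AddMonoidHom.id ℤ)

theorem deg_single (g : QZ) : deg (Finsupp.single g 1) = 1 := by
  unfold deg; simp

theorem deg_emb (s : Multiset QZ) : deg (emb s) = Multiset.card s := by
  induction s using Multiset.induction_on with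
  | empty => simp [emb_zero]
  | cons a s ih =>
    rw [emb_cons, map_add, ih, deg_single, Multiset.card_cons]; push_cast; ring

theorem deg_R {r : QZ →₀ ℤ} (hr : r ∈ R) : (2 : ℤ) ∣ deg r := by
  refine AddSubgroup.closure_induction (p := fun r _ => (2 : ℤ) ∣ deg r) ?_ ?_ ?_ ?_ hr
  · rintro _ ⟨s, hs, rfl⟩
    rw [deg_emb]
    cases hs with
    | pair c hc => simp
    | odd p hp hodd x hx =>
      obtain ⟨c, hc⟩ := hodd
      rw [Multiset.card_cons, Multiset.card_map, Multiset.card_range]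
      exact ⟨c + 1, by rw [hc]; push_cast; ring⟩
    | two x hx => simp
  · simp
  · intro r r' _ _ h h'
    rw [map_add]; exact dvd_add h h'
  · intro r _ h
    rw [map_neg]; exact (dvd_neg).2 h

theorem half_ne_zero : half ≠ 0 := by
  unfold half
  rw [Ne, coe_eq_zero_iff]
  have : Int.fract (1 / 2 : ℚ) = 1 / 2 := by
    rw [Int.fract_eq_self]; norm_num
  rw [this]; norm_num

theorem rho_half : ρ half = hh := rfl

theorem zsmul_hh (c : ℤ) : c • hh = if Odd c then hh else 0 := by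
  have h2 := hh_two
  split_ifs with h
  · obtain ⟨k, rfl⟩ := h
    rw [add_smul, one_smul, mul_comm, mul_smul, h2, smul_zero, zero_add]
  · rw [Int.not_odd_iff_even] at h
    obtain ⟨k, rfl⟩ := h
    rw [← two_mul, mul_comm, mul_smul, h2, smul_zero]

theorem pts_eq {m k : ℕ} (a : Fin k → ZMod m) : pts a = ptsQ (frac m a) := rfl

theorem pts_ne_zero {m k : ℕ} (hm : 0 < m) (a : Fin k → ZMod m) (h : ∀ i, a i ≠ 0) :
    ∀ g ∈ pts a, g ≠ 0 := by
  have : NeZero m := ⟨hm.ne'⟩
  intro g hg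
  obtain ⟨i, -, rfl⟩ := Multiset.mem_map.1 hg
  rw [Ne, coe_eq_zero_iff]
  exact (FZ_ne m hm a i).2 (h i)

theorem mk_ptsQ {k : ℕ} (x : Fin k → ℚ) (h : ∀ g ∈ ptsQ x, g ≠ 0) :
    mk (emb (ptsQ x)) = ∑ j, F (x j) := by
  rw [mk_emb _ h, ptsQ, Multiset.map_map]
  rfl

/-- multisets of points killed by `N` are multisets of points of level `N` -/
theorem lift_pts (N : ℕ) (hN : 0 < N) (s : Multiset QZ) (hs : ∀ g ∈ s, N • g = 0) (l : ℕ)
    (hl : Multiset.card s = l) : ∃ z : Fin l → ZMod N, pts z = s := by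
  classical
  have : NeZero N := ⟨hN.ne'⟩
  have hNq : (N : ℚ) ≠ 0 := by exact_mod_cast hN.ne'
  have hf : ∀ g : QZ, ∃ c : ZMod N, N • g = 0 → ((((c.val : ℚ) / N : ℚ)) : QZ) = g := by
    intro g
    by_cases hg : N • g = 0
    · obtain ⟨q, rfl⟩ := QuotientAddGroup.mk_surjective g
      have hg' : N • (q : QZ) = 0 := hg
      rw [← AddCircle.coe_nsmul, coe_eq_zero_iff, nsmul_eq_mul] at hg'
      obtain ⟨n, hn⟩ := int_of_fract hg'
      refine ⟨(n : ZMod N), fun _ => ?_⟩
      have h1 : (((n : ZMod N).val : ℕ) : ℤ) = n % N := by rw [ZMod.val_intCast]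
      have h2 : (((n : ZMod N).val : ℕ) : ℚ) = ((n % N : ℤ) : ℚ) := by rw [← h1]; simp
      have h3 : ((n % N : ℤ) : ℚ) + N * ((n / N : ℤ) : ℚ) = n := by
        exact_mod_cast Int.emod_add_mul_ediv n N
      have h4 : (((n : ZMod N).val : ℕ) : ℚ) / N = q + ((-(n / N) : ℤ) : ℚ) := by
        rw [h2, div_eq_iff hNq]
        push_cast
        linarith
      rw [h4, coe_add_int]
    · exact ⟨0, fun h => absurd h hg⟩
  choose f hf using hf
  subst hl
  induction s using Quotient.inductionOn with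
  | _ L =>
    refine ⟨fun i : Fin L.length => f (L.get i), ?_⟩
    have h1 : pts (fun i : Fin L.length => f (L.get i)) =
        (Finset.univ : Finset (Fin L.length)).val.map (fun i => L.get i) := by
      unfold pts
      apply Multiset.map_congr rfl
      intro i _
      exact hf _ (hs _ (by
        rw [Multiset.quot_mk_to_coe, Multiset.mem_coe]
        exact List.get_mem L i))
    change pts (fun i : Fin L.length => f (L.get i)) = (L : Multiset QZ)
    rw [h1, Fin.univ_val_map, List.ofFn_get]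

/-- the sum of a Tate vector of even length is zero -/
theorem sum_zero_of_tateM (m : ℕ) (hm : 0 < m) (e : ℕ) (a : Fin (2 * e) → ZMod m)
    (h : TateM m a) : ∑ i, a i = 0 := by
  have : NeZero m := ⟨hm.ne'⟩
  have h1 := h.2 1
  simp only [Units.val_one, one_mul] at h1
  have h2 : ∑ i, (a i).val = e * m := by
    have : 2 * ∑ i, (a i).val = 2 * (e * m) := by rw [h1]; ring
    exact Nat.eq_of_mul_eq_mul_left (by norm_num) this
  have h3 : ((∑ i, (a i).val : ℕ) : ZMod m) = ∑ i, a i := by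
    push_cast
    exact Finset.sum_congr rfl fun i _ => ZMod.natCast_zmod_val _
  rw [← h3, h2]; simp

/-- the one-block partition -/
abbrev one (l : ℕ) : Fin l → Fin 1 := fun _ => 0

theorem isTateChar_one (m : ℕ) (hm : 0 < m) (e : ℕ) (a : Fin (2 * e) → ZMod m) :
    IsTateChar m (one (2 * e)) a ↔ TateM m a := by
  rw [isTateChar_iff m hm]
  refine ⟨fun h => h.2, fun h => ⟨fun j => ?_, h⟩⟩
  have : univ.filter (fun i => one (2 * e) i = j) = univ := by
    ext i; simp [Subsingleton.elim j 0]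
  rw [this]
  exact sum_zero_of_tateM m hm e a h

/-- `a` is equal, up to standard elements, to a Tate character `z` of level `N` and of length `2e`,
made of entries of `a` and possibly `1/2` -/
def RedTo (N : ℕ) {m k : ℕ} (a : Fin k → ZMod m) (e : ℕ) : Prop :=
  ∃ z : Fin (2 * e) → ZMod N, IsTateChar N (one (2 * e)) z ∧ pts z ≤ half ::ₘ pts a ∧
    StdEquiv (pts a) (pts z)

/-- a pure family -/
theorem family_red {d : ℕ} (H : Fam (2 * d)) (hp : H.Pure)
    (hne : ∃ x, H.Mem x ∧ ∀ i, Int.fract (x i) ≠ 0) (N : ℕ) (hN : 0 < N)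
    (hbN : ∀ i, (H.b i).den ∣ N) (h2N : 2 ∣ N) :
    ∃ e : ℕ, e ≤ d ∧
      (∀ m : ℕ, 0 < m → ∀ a : Fin (2 * d) → ZMod m, TateM m a → H.Mem (frac m a) →
        RedTo N a e) ∧
      ∃ C : ℕ, ∀ m : ℕ, 0 < m →
        Set.ncard {a : Fin (2 * d) → ZMod m | H.Mem (frac m a)} * m ^ e ≤ C * m ^ d := by
  classical
  obtain ⟨Z, R', c, hZ, hcard, hR', hred⟩ := reduce H hp hne
  set s : Multiset QZ := Z.val.map (fun j => ((H.b j : ℚ) : QZ)) +
    (if Odd c then ({half} : Multiset QZ) else 0) with hs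
  have hbZ : ∀ x, H.Mem x → ∀ j ∈ Z, ((x j : ℚ) : QZ) = ((H.b j : ℚ) : QZ) := by
    rintro x ⟨u, hu⟩ j hj
    obtain ⟨n, hn⟩ := hu j
    rw [hn, (hZ j).1 hj]
    have : ∑ l, (((0 : Fin H.d → ℤ) l : ℤ) : ℚ) * u l = 0 := by simp
    rw [this, zero_add, coe_add_int]
  have hsle : ∀ x, H.Mem x → s ≤ half ::ₘ ptsQ x := by
    intro x hx
    have h1 : Z.val.map (fun j => ((H.b j : ℚ) : QZ)) ≤ ptsQ x := by
      rw [Multiset.map_congr rfl (g := fun j => ((x j : ℚ) : QZ))
        (fun j hj => (hbZ x hx j hj).symm)]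
      exact Multiset.map_le_map (Finset.val_le_iff.2 (Finset.subset_univ Z))
    rw [hs, ← Multiset.singleton_add, add_comm ({half} : Multiset QZ)]
    refine add_le_add h1 ?_
    split_ifs
    · exact le_rfl
    · exact Multiset.zero_le _
  obtain ⟨x0, hx0, hx0'⟩ := hne
  have hx0g : ∀ g ∈ ptsQ x0, g ≠ 0 := by
    intro g hg
    obtain ⟨i, -, rfl⟩ := Multiset.mem_map.1 hg
    rw [Ne, coe_eq_zero_iff]; exact hx0' i
  have hs0 : ∀ g ∈ s, g ≠ 0 := by
    intro g hg
    have := Multiset.mem_of_le (hsle x0 hx0) hg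
    rcases Multiset.mem_cons.1 this with rfl | h
    · exact half_ne_zero
    · exact hx0g g h
  have hsN : ∀ g ∈ s, N • g = 0 := by
    intro g hg
    rw [hs, Multiset.mem_add] at hg
    rcases hg with hg | hg
    · obtain ⟨j, -, rfl⟩ := Multiset.mem_map.1 hg
      rw [← AddCircle.coe_nsmul, coe_eq_zero_iff, nsmul_eq_mul]
      obtain ⟨n, hn⟩ := int_of_den_dvd (H.b j) N (hbN j)
      rw [hn]; exact Int.fract_intCast n
    · split_ifs at hg
      · rw [Multiset.mem_singleton] at hg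
        rw [hg]
        unfold half
        rw [← AddCircle.coe_nsmul, coe_eq_zero_iff, nsmul_eq_mul]
        obtain ⟨n, hn⟩ := h2N
        rw [hn]
        have : ((2 * n : ℕ) : ℚ) * (1 / 2) = (n : ℤ) := by push_cast; ring
        rw [this]; exact Int.fract_intCast _
      · simp at hg
  have hmks : mk (emb s) = ∑ j ∈ Z, F (H.b j) + c • hh := by
    rw [mk_emb _ hs0, hs, Multiset.map_add, Multiset.sum_add, Multiset.map_map, zsmul_hh]
    congr 1
    split_ifs
    · rw [Multiset.map_singleton, Multiset.sum_singleton, rho_half]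
    · simp
  have hmem : ∀ x, H.Mem x → (∀ g ∈ ptsQ x, g ≠ 0) → emb (ptsQ x) - emb s ∈ R := by
    intro x hx hx1
    rw [← mk_eq_zero, map_sub, hmks, mk_ptsQ x hx1, hred x hx, sub_self]
  -- parity
  have hpar : 2 ∣ Multiset.card s := by
    have h1 := deg_R (hmem x0 hx0 hx0g)
    rw [map_sub, deg_emb, deg_emb] at h1
    have h2 : Multiset.card (ptsQ x0) = 2 * d := by
      rw [ptsQ, Multiset.card_map]; simp
    rw [h2] at h1
    omega
  obtain ⟨e, he⟩ := hpar
  have hcs : Multiset.card s = Z.card + (if Odd c then 1 else 0) := by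
    rw [hs, Multiset.card_add, Multiset.card_map]
    congr 1
    split_ifs <;> simp
  have hZe : 2 * e ≤ Z.card + 1 := by
    rw [← he, hcs]; split_ifs <;> omega
  have hed : e ≤ d := by
    have h1 : Z.card ≤ 2 * d := by omega
    rw [hcs] at he
    split_ifs at he <;> omega
  refine ⟨e, hed, ?_, ?_⟩
  · intro m hm a hT hH
    obtain ⟨z, hz⟩ := lift_pts N hN s hsN (2 * e) he
    have hz0 : ∀ i, z i ≠ 0 := by
      intro i hi
      have : NeZero N := ⟨hN.ne'⟩
      apply hs0 ((((z i).val : ℚ) / N : ℚ) : QZ)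
      · rw [← hz]
        exact Multiset.mem_map.2 ⟨i, Finset.mem_univ i, rfl⟩
      · rw [hi]; simp
    have h1 := hmem _ hH (pts_ne_zero hm a hT.1)
    rw [← hz, pts_eq z] at h1
    have h2 := tate_transfer _ _ (fun i => (FZ_ne N hN z i).2 (hz0 i)) h1
      ((tateM_iff m hm a).1 hT)
    refine ⟨z, (isTateChar_one N hN e z).2 ((tateM_iff N hN z).2 h2), ?_, ?_⟩
    · rw [hz]; exact hsle _ hH
    · rw [stdEquiv_iff]; exact h1
  · obtain ⟨C, hC⟩ := count_le H R' hR'
    refine ⟨C, fun m hm => ?_⟩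
    calc _ ≤ C * m ^ R'.card * m ^ e := Nat.mul_le_mul_right _ (hC m hm)
      _ = C * m ^ (R'.card + e) := by rw [mul_assoc, ← pow_add]
      _ ≤ C * m ^ d := Nat.mul_le_mul_left _ (Nat.pow_le_pow_right hm (by omega))

/-- bounded level -/
theorem bounded_level (d : ℕ) {s : ℕ} (π : Fin (2 * d) → Fin s) :
    ∃ N C : ℕ, 0 < N ∧ ∀ m : ℕ, 0 < m →
      (∀ a : Fin (2 * d) → ZMod m, IsTateChar m π a ↔
        (∀ i, a i ≠ 0) ∧ BlockZero π a ∧ ∃ e ≤ d, RedTo N a e) ∧
      ∀ e : ℕ, m ^ e * Set.ncard {a : Fin (2 * d) → ZMod m | IsTateChar m π a ∧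
        ¬ ∃ e' < e, RedTo N a e'} ≤ C * m ^ d := by
  classical
  obtain ⟨Ls, hLs, hcov⟩ := families (fullFam (2 * d))
  set N : ℕ := 2 * (Ls.map (fun H => ∏ i, (H.b i).den)).prod with hN
  have hN0 : 0 < N := by
    refine Nat.mul_pos (by norm_num) (Nat.pos_of_ne_zero ?_)
    apply List.prod_ne_zero
    intro h
    obtain ⟨H, -, hH⟩ := List.mem_map.1 h
    exact absurd hH (Finset.prod_pos fun i _ => (H.b i).den_pos).ne'
  have hHN : ∀ H ∈ Ls, ∀ i, (H.b i).den ∣ N := by
    intro H hH i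
    refine dvd_mul_of_dvd_right ?_ _
    refine (Finset.dvd_prod_of_mem (fun i => (H.b i).den) (mem_univ i)).trans ?_
    exact List.dvd_prod (List.mem_map.2 ⟨H, hH, rfl⟩)
  have hkey : ∀ H : Fam (2 * d), ∃ e C : ℕ, H ∈ Ls → e ≤ d ∧
      (∀ m : ℕ, 0 < m → ∀ a : Fin (2 * d) → ZMod m, TateM m a → H.Mem (frac m a) →
        RedTo N a e) ∧
      ∀ m : ℕ, 0 < m → Set.ncard {a : Fin (2 * d) → ZMod m | TateM m a ∧ H.Mem (frac m a)} * m ^ e
        ≤ C * m ^ d := by
    intro H
    by_cases hH : H ∈ Ls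
    · by_cases hne : ∃ x, H.Mem x ∧ ∀ i, Int.fract (x i) ≠ 0
      · obtain ⟨e, he, h1, C, hC⟩ := family_red H (hLs H hH).1 hne N hN0 (hHN H hH)
          (dvd_mul_right _ _)
        refine ⟨e, C, fun _ => ⟨he, h1, fun m hm => ?_⟩⟩
        have : NeZero m := ⟨hm.ne'⟩
        refine le_trans (Nat.mul_le_mul_right _ (Set.ncard_le_ncard ?_ (Set.toFinite _))) (hC m hm)
        intro a ha
        exact ha.2
      · refine ⟨0, 0, fun _ => ⟨Nat.zero_le _, fun m hm a hT hM => ?_, fun m hm => ?_⟩⟩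
        · exact absurd ⟨_, hM, ((tateM_iff m hm a).1 hT).1⟩ hne
        · have : {a : Fin (2 * d) → ZMod m | TateM m a ∧ H.Mem (frac m a)} = ∅ := by
            ext a
            rw [Set.mem_empty_iff_false, iff_false]
            rintro ⟨hT, hM⟩
            exact hne ⟨_, hM, ((tateM_iff m hm a).1 hT).1⟩
          rw [this]; simp
    · exact ⟨0, 0, fun h => absurd h hH⟩
  choose E C hEC using hkey
  refine ⟨N, (Ls.map C).sum, hN0, fun m hm => ⟨fun a => ?_, fun e => ?_⟩⟩
  · constructor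
    · intro ha
      have h1 := (isTateChar_iff m hm π a).1 ha
      obtain ⟨H, hH, hM⟩ := hcov _ (fullFam_mem _) ((tateM_iff m hm a).1 h1.2)
      obtain ⟨h2, h3, -⟩ := hEC H hH
      exact ⟨ha.1, h1.1, E H, h2, h3 m hm a h1.2 hM⟩
    · rintro ⟨h0, hb, e, -, z, hz, -, hst⟩
      refine (isTateChar_iff m hm π a).2 ⟨hb, (tateM_iff m hm a).2 ?_⟩
      rw [stdEquiv_iff, pts_eq, pts_eq] at hst
      have hz' := (tateM_iff N hN0 z).1 ((isTateChar_one N hN0 e z).1 hz)
      refine tate_transfer _ _ (fun i => (FZ_ne m hm a i).2 (h0 i)) ?_ hz'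
      have := R.neg_mem hst
      rwa [neg_sub] at this
  · have : NeZero m := ⟨hm.ne'⟩
    have hsub : ∀ Ms : List (Fam (2 * d)), (∀ H ∈ Ms, H ∈ Ls) →
        m ^ e * Set.ncard {a : Fin (2 * d) → ZMod m | TateM m a ∧ (¬ ∃ e' < e, RedTo N a e') ∧
          ∃ H ∈ Ms, H.Mem (frac m a)} ≤ (Ms.map C).sum * m ^ d := by
      intro Ms
      induction Ms with
      | nil => intro _; simp
      | cons H Ms ih =>
        intro h
        have hH := h H (by simp)
        obtain ⟨h4, h5, h6⟩ := hEC H hH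
        have h2 := ih (fun H' hH' => h H' (by simp [hH']))
        have h1 : m ^ e * Set.ncard {a : Fin (2 * d) → ZMod m | TateM m a ∧
            (¬ ∃ e' < e, RedTo N a e') ∧ H.Mem (frac m a)} ≤ C H * m ^ d := by
          by_cases hle : e ≤ E H
          · have h7 := h6 m hm
            calc _ ≤ m ^ E H * Set.ncard {a : Fin (2 * d) → ZMod m | TateM m a ∧
                  H.Mem (frac m a)} := by
                  refine Nat.mul_le_mul (Nat.pow_le_pow_right hm hle)
                    (Set.ncard_le_ncard ?_ (Set.toFinite _))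
                  intro a ha
                  exact ⟨ha.1, ha.2.2⟩
              _ ≤ _ := by rw [mul_comm]; exact h7
          · have : {a : Fin (2 * d) → ZMod m | TateM m a ∧
                (¬ ∃ e' < e, RedTo N a e') ∧ H.Mem (frac m a)} = ∅ := by
              ext a
              rw [Set.mem_empty_iff_false, iff_false]
              rintro ⟨hT, hn, hM⟩
              exact hn ⟨E H, by omega, h5 m hm a hT hM⟩
            rw [this]; simp
        have hun : {a : Fin (2 * d) → ZMod m | TateM m a ∧ (¬ ∃ e' < e, RedTo N a e') ∧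
            ∃ H' ∈ H :: Ms, H'.Mem (frac m a)} ⊆
            {a : Fin (2 * d) → ZMod m | TateM m a ∧ (¬ ∃ e' < e, RedTo N a e') ∧
              H.Mem (frac m a)} ∪
            {a : Fin (2 * d) → ZMod m | TateM m a ∧ (¬ ∃ e' < e, RedTo N a e') ∧
              ∃ H' ∈ Ms, H'.Mem (frac m a)} := by
          rintro a ⟨g1, g2, H', hH', g3⟩
          rcases List.mem_cons.1 hH' with rfl | hH'
          · exact Or.inl ⟨g1, g2, g3⟩
          · exact Or.inr ⟨g1, g2, H', hH', g3⟩
        refine (Nat.mul_le_mul_left _ ((Set.ncard_le_ncard hun (Set.toFinite _)).trans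
          (Set.ncard_union_le _ _))).trans ?_
        rw [List.map_cons, List.sum_cons, add_mul, mul_add]
        exact Nat.add_le_add h1 h2
    refine le_trans (Nat.mul_le_mul_left _ (Set.ncard_le_ncard ?_ (Set.toFinite _)))
      (hsub Ls (fun _ h => h))
    rintro a ⟨h1, h2⟩
    have h3 := (isTateChar_iff m hm π a).1 h1
    exact ⟨h3.2, h2, hcov _ (fullFam_mem _) ((tateM_iff m hm a).1 h3.2)⟩

end Pool.Agent.helper34.DH
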