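import Pool.Agent.helper34.DH.Defs

/-!
# The distribution relations modulo standard elements
-/

set_option autoImplicit false

namespace Pool.Agent.helper34.DH

open Finset

/-- the quotient group -/
def Qt : Type := (QZ →₀ ℤ) ⧸ R

noncomputable instance : AddCommGroup Qt := inferInstanceAs (AddCommGroup ((QZ →₀ ℤ) ⧸ R))

/-- the projection -/
noncomputable def mk : (QZ →₀ ℤ) →+ Qt := QuotientAddGroup.mk' R

theorem mk_eq_zero (r : QZ →₀ ℤ) : mk r = 0 ↔ r ∈ R := QuotientAddGroup.eq_zero_iff r

open Classical in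
/-- the class of the point `g`, zero being killed -/
noncomputable def ρ (g : QZ) : Qt := if g = 0 then 0 else mk (Finsupp.single g (1 : ℤ))

/-- the class of the point `x` modulo `1` -/
noncomputable def F (x : ℚ) : Qt := ρ (x : QZ)

theorem coe_eq_zero_iff (x : ℚ) : ((x : ℚ) : QZ) = 0 ↔ Int.fract x = 0 := by
  rw [AddCircle.coe_eq_zero_iff, Int.fract_eq_zero_iff]
  constructor
  · rintro ⟨n, hn⟩; exact ⟨n, by simpa using hn⟩
  · rintro ⟨n, hn⟩; exact ⟨n, by simpa using hn⟩

theorem coe_add_int (x : ℚ) (n : ℤ) : (((x + n : ℚ)) : QZ) = (x : QZ) := by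
  rw [AddCircle.coe_add]
  have : (((n : ℚ)) : QZ) = 0 := by
    rw [coe_eq_zero_iff]; exact Int.fract_intCast n
  rw [this, add_zero]

theorem F_add_int (x : ℚ) (n : ℤ) : F (x + n) = F x := by
  unfold F; rw [coe_add_int]

theorem F_int (n : ℤ) : F n = 0 := by
  unfold F ρ
  rw [if_pos]
  rw [coe_eq_zero_iff]; exact Int.fract_intCast n

theorem F_zero : F 0 = 0 := by simpa using F_int 0

theorem F_congr {x y : ℚ} (h : ∃ n : ℤ, x = y + n) : F x = F y := by
  obtain ⟨n, rfl⟩ := h
  exact F_add_int y n

theorem rho_neg (g : QZ) : ρ (-g) = -ρ g := by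
  unfold ρ
  by_cases h : g = 0
  · simp [h]
  · rw [if_neg h, if_neg (neg_ne_zero.2 h), eq_neg_iff_add_eq_zero, ← map_add, mk_eq_zero]
    have := std_mem (IsStd.pair g h)
    rw [show ({g, -g} : Multiset QZ) = g ::ₘ (-g) ::ₘ 0 from rfl, emb_cons, emb_cons, emb_zero,
      add_zero, add_comm] at this
    exact this

theorem F_neg (x : ℚ) : F (-x) = -F x := by
  unfold F
  rw [← rho_neg, AddCircle.coe_neg]

/-- the class of the point `1/2` -/
noncomputable def hh : Qt := F (1 / 2)

theorem hh_two : (2 : ℤ) • hh = 0 := by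
  have h1 : hh = -hh := by
    conv_lhs => rw [hh]
    rw [show (1 / 2 : ℚ) = -(1 / 2) + (1 : ℤ) by norm_num, F_add_int, F_neg]
    rfl
  rw [two_smul]
  nth_rewrite 1 [h1]
  exact neg_add_cancel _

theorem rho_of_ne {g : QZ} (h : g ≠ 0) :
    ρ g = mk (Finsupp.single g (1 : ℤ)) := by
  unfold ρ; rw [if_neg h]

theorem mk_emb (s : Multiset QZ) (hs : ∀ g ∈ s, g ≠ 0) :
    mk (emb s) = (s.map ρ).sum := by
  induction s using Multiset.induction_on with
  | empty => simp [emb_zero]
  | cons a s ih =>
    rw [emb_cons, map_add, ih (fun g hg => hs g (by simp [hg])),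
      Multiset.map_cons, Multiset.sum_cons, rho_of_ne (hs a (by simp))]

theorem sum_range_F (p : ℕ) (x : ℚ) :
    ((Multiset.range p).map (fun i : ℕ => ρ ((x : QZ) + (((i : ℚ) / p : ℚ) : QZ)))).sum =
      ∑ i ∈ range p, F (x + i / p) := by
  rw [Finset.sum, Finset.range_val]
  congr 1

/-- odd prime distribution -/
theorem dist_odd (p : ℕ) (hp : p.Prime) (hodd : Odd p) (x : ℚ) :
    ∑ i ∈ range p, F (x + i / p) = F (p * x) := by
  have hp0 : (p : ℚ) ≠ 0 := by exact_mod_cast hp.ne_zero
  by_cases hx : Int.fract (p * x) = 0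
  · -- all `p`-torsion points
    rw [Int.fract_eq_zero_iff] at hx
    obtain ⟨n, hn⟩ := hx
    have h1 : x = n / p := by field_simp; linarith
    rw [← hn, F_int]
    -- reindex by `ZMod p`
    have : NeZero p := ⟨hp.ne_zero⟩
    set f : ZMod p → Qt := fun c => F ((c.val : ℚ) / p) with hf
    have hfint : ∀ j : ℤ, F ((j : ℚ) / p) = f (j : ZMod p) := by
      intro j
      rw [hf]
      apply F_congr
      refine ⟨j / p, ?_⟩
      have h2 : (((j : ZMod p).val : ℕ) : ℤ) = j % p := by
        rw [ZMod.val_intCast]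
      have h3 : (((j : ZMod p).val : ℕ) : ℚ) = ((j % p : ℤ) : ℚ) := by
        rw [← h2]; simp
      rw [h3]
      have h4 := Int.emod_add_mul_ediv j p
      have h5 : ((j % p : ℤ) : ℚ) + p * ((j / p : ℤ) : ℚ) = j := by exact_mod_cast h4
      field_simp
      linarith
    have h2 : ∑ i ∈ range p, F (x + i / p) = ∑ c : ZMod p, f c := by
      have h3 : ∀ i ∈ range p, F (x + i / p) = f ((n : ZMod p) + (i : ZMod p)) := by
        intro i _
        rw [h1, ← add_div, show (n : ℚ) + (i : ℚ) = ((n + (i : ℤ) : ℤ) : ℚ) by push_cast; ring,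
          hfint]
        congr 1
        push_cast
        rfl
      rw [Finset.sum_congr rfl h3]
      rw [show (∑ i ∈ range p, f ((n : ZMod p) + (i : ZMod p))) =
        ∑ c : ZMod p, f ((n : ZMod p) + c) from ?_]
      · exact Fintype.sum_equiv (Equiv.addLeft (n : ZMod p)) _ _ (fun c => rfl)
      · refine Finset.sum_bij (fun i _ => (i : ZMod p)) (fun _ _ => Finset.mem_univ _) ?_ ?_ ?_
        · intro i hi j hj hij
          rw [Finset.mem_range] at hi hj
          have := (ZMod.natCast_eq_natCast_iff' i j p).1 hij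
          rwa [Nat.mod_eq_of_lt hi, Nat.mod_eq_of_lt hj] at this
        · intro c _
          exact ⟨c.val, Finset.mem_range.2 (ZMod.val_lt c), ZMod.natCast_zmod_val c⟩
        · intro i _; rfl
    rw [h2]
    -- pair `c` with `-c`
    have hneg : ∀ c, f (-c) = -f c := by
      intro c
      have h3 : f (-c) = F (((-(c.val : ℤ) : ℤ) : ℚ) / p) := by
        rw [hfint]
        congr 1
        push_cast
        rw [ZMod.natCast_zmod_val]
      rw [h3]
      rw [show (((-(c.val : ℤ) : ℤ) : ℚ) / p) = -((c.val : ℚ) / p) by push_cast; ring, F_neg]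
    have hf0 : f 0 = 0 := by
      rw [hf]; simp [F_zero]
    exact Finset.sum_involution (fun c _ => -c) (fun c _ => by rw [hneg]; abel)
      (fun c _ hc => by
        intro h
        apply hc
        have h3 : (2 : ZMod p) * c = 0 := by
          rw [two_mul]
          nth_rewrite 1 [← h]
          exact neg_add_cancel c
        have : Fact p.Prime := ⟨hp⟩
        rcases mul_eq_zero.1 h3 with h4 | h4
        · exfalso
          have h5 : ((2 : ℕ) : ZMod p) = 0 := by exact_mod_cast h4
          rw [ZMod.natCast_eq_zero_iff] at h5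
          have h6 := Nat.le_of_dvd (by norm_num) h5
          have h7 := hp.two_le
          have h8 : p = 2 := by omega
          rw [h8] at hodd
          exact absurd hodd (by decide)
        · rw [h4, hf0])
      (fun c _ => Finset.mem_univ _) (fun c _ => neg_neg c)
  · -- generic case
    have hx' : p • (x : QZ) ≠ 0 := by
      rw [← AddCircle.coe_nsmul, Ne, coe_eq_zero_iff, nsmul_eq_mul]
      exact hx
    have h1 := std_mem (IsStd.odd p hp hodd (x : QZ) hx')
    have h2 : ∀ g ∈ (-(p • (x : QZ)) ::ₘ (Multiset.range p).map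
        (fun i : ℕ => (x : QZ) + (((i : ℚ) / p : ℚ) : QZ))), g ≠ 0 := by
      intro g hg
      rcases Multiset.mem_cons.1 hg with rfl | hg
      · exact neg_ne_zero.2 hx'
      · obtain ⟨i, -, rfl⟩ := Multiset.mem_map.1 hg
        intro h0
        apply hx'
        have h3 : p • ((x : QZ) + (((i : ℚ) / p : ℚ) : QZ)) = 0 := by rw [h0, smul_zero]
        rw [smul_add, ← AddCircle.coe_nsmul (x := ((i : ℚ) / p)), nsmul_eq_mul,
          mul_div_cancel₀ _ hp0] at h3
        have h4 : (((i : ℚ)) : QZ) = 0 := by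
          rw [coe_eq_zero_iff]; exact Int.fract_natCast i
        rw [h4, add_zero] at h3
        exact h3
    rw [← mk_eq_zero, mk_emb _ h2, Multiset.map_cons, Multiset.sum_cons,
      Multiset.map_map, rho_neg] at h1
    have h3 : ρ (p • (x : QZ)) = F (p * x) := by
      unfold F
      rw [← AddCircle.coe_nsmul, nsmul_eq_mul]
    rw [h3] at h1
    have h4 := sum_range_F p x
    have h5 : ((Multiset.range p).map (ρ ∘ fun i : ℕ => (x : QZ) + (((i : ℚ) / p : ℚ) : QZ))).sum =
      ∑ i ∈ range p, F (x + i / p) := h4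
    rw [h5, neg_add_eq_zero] at h1
    exact h1.symm

/-- distribution at the prime 2 -/
theorem dist_two (x : ℚ) : F x + F (x + 1 / 2) = F (2 * x) + hh := by
  by_cases hx : Int.fract (2 * x) = 0
  · rw [Int.fract_eq_zero_iff] at hx
    obtain ⟨n, hn⟩ := hx
    rw [← hn, F_int, zero_add]
    rcases Int.even_or_odd' n with ⟨c, hc | hc⟩
    · have h1 : x = (c : ℤ) := by rw [hc] at hn; push_cast at hn ⊢; linarith
      rw [h1, F_int, zero_add, add_comm, F_add_int]
      rfl
    · have h1 : x = 1 / 2 + (c : ℤ) := by rw [hc] at hn; push_cast at hn ⊢; linarith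
      rw [h1, F_add_int, show (1 / 2 + (c : ℤ) + 1 / 2 : ℚ) = ((c + 1 : ℤ) : ℚ) by
        push_cast; ring, F_int, add_zero]
      rfl
  · have hx' : 2 • (x : QZ) ≠ 0 := by
      rw [← AddCircle.coe_nsmul, Ne, coe_eq_zero_iff, nsmul_eq_mul]
      exact_mod_cast hx
    have h1 := std_mem (IsStd.two (x : QZ) hx')
    have hhalf : (2 : ℕ) • half = 0 := by
      unfold half
      rw [← AddCircle.coe_nsmul, coe_eq_zero_iff, nsmul_eq_mul]
      norm_num
    have hhalf0 : half ≠ 0 := by
      unfold half
      rw [Ne, coe_eq_zero_iff]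
      have : Int.fract (1 / 2 : ℚ) = 1 / 2 := by
        rw [Int.fract_eq_self]; norm_num
      rw [this]; norm_num
    have h2 : ∀ g ∈ ({(x : QZ), (x : QZ) + half, -(2 • (x : QZ)), half} : Multiset QZ), g ≠ 0 := by
      intro g hg
      simp only [Multiset.insert_eq_cons, Multiset.mem_cons, Multiset.mem_singleton] at hg
      rcases hg with rfl | rfl | rfl | rfl
      · intro h0; rw [h0, smul_zero] at hx'; exact hx' rfl
      · intro h0
        apply hx'
        have h3 : (2 : ℕ) • ((x : QZ) + half) = 0 := by rw [h0, smul_zero]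
        rwa [smul_add, hhalf, add_zero] at h3
      · exact neg_ne_zero.2 hx'
      · exact hhalf0
    rw [← mk_eq_zero, mk_emb _ h2] at h1
    simp only [Multiset.insert_eq_cons, Multiset.map_cons, Multiset.sum_cons,
      Multiset.map_singleton, Multiset.sum_singleton, rho_neg] at h1
    have h3 : ρ (2 • (x : QZ)) = F (2 * x) := by
      unfold F
      rw [← AddCircle.coe_nsmul, nsmul_eq_mul]
      norm_num
    have h4 : ρ ((x : QZ) + half) = F (x + 1 / 2) := by
      unfold F half
      rw [AddCircle.coe_add]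
    have h5 : ρ half = hh := rfl
    have h6 : ρ (x : QZ) = F x := rfl
    rw [h3, h4, h5, h6] at h1
    have h7 := hh_two
    rw [two_smul] at h7
    have h8 : F x + F (x + 1 / 2) - (F (2 * x) + hh) =
        (F x + (F (x + 1 / 2) + (-F (2 * x) + hh))) - (hh + hh) := by abel
    rw [← sub_eq_zero, h8, h1, h7, sub_zero]

/-- general distribution relation -/
theorem dist (n : ℕ) (hn : 0 < n) :
    ∃ c : ℤ, ∀ x : ℚ, ∑ i ∈ range n, F (x + i / n) = F (n * x) + c • hh := by
  induction n using Nat.recOnMul with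
  | zero => exact absurd hn (lt_irrefl _)
  | one =>
    refine ⟨0, fun x => ?_⟩
    simp
  | prime p hp =>
    rcases hp.eq_two_or_odd' with rfl | hodd
    · refine ⟨1, fun x => ?_⟩
      rw [Finset.sum_range_succ, Finset.sum_range_succ, Finset.sum_range_zero, zero_add, one_smul]
      have := dist_two x
      push_cast
      rw [zero_div, add_zero]
      exact this
    · refine ⟨0, fun x => ?_⟩
      rw [zero_smul, add_zero]
      exact dist_odd p hp hodd x
  | mul a b ha hb =>
    have ha0 : 0 < a := Nat.pos_of_ne_zero (by rintro rfl; simp at hn)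
    have hb0 : 0 < b := Nat.pos_of_ne_zero (by rintro rfl; simp at hn)
    obtain ⟨ca, hca⟩ := ha ha0
    obtain ⟨cb, hcb⟩ := hb hb0
    refine ⟨ca + a * cb, fun x => ?_⟩
    have haq : (a : ℚ) ≠ 0 := by exact_mod_cast ha0.ne'
    have hbq : (b : ℚ) ≠ 0 := by exact_mod_cast hb0.ne'
    -- index `i = u + a v`, `u < a`, `v < b`
    have h1 : ∑ i ∈ range (a * b), F (x + i / ((a * b : ℕ) : ℚ)) =
        ∑ u ∈ range a, ∑ v ∈ range b, F ((x + u / (a * b)) + v / b) := by
      rw [← Finset.sum_product']
      refine Finset.sum_nbij' (fun i => (i % a, i / a)) (fun q => q.1 + a * q.2) ?_ ?_ ?_ ?_ ?_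
      · intro i hi
        rw [Finset.mem_range] at hi
        rw [Finset.mem_product, Finset.mem_range, Finset.mem_range]
        exact ⟨Nat.mod_lt _ ha0, Nat.div_lt_of_lt_mul hi⟩
      · rintro ⟨u, v⟩ hq
        rw [Finset.mem_product, Finset.mem_range, Finset.mem_range] at hq
        rw [Finset.mem_range]
        calc u + a * v < a + a * v := by omega
          _ = a * (v + 1) := by ring
          _ ≤ a * b := Nat.mul_le_mul_left _ hq.2
      · intro i _
        exact Nat.mod_add_div i a
      · rintro ⟨u, v⟩ hq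
        rw [Finset.mem_product, Finset.mem_range, Finset.mem_range] at hq
        simp only [Prod.mk.injEq]
        refine ⟨?_, ?_⟩
        · rw [Nat.add_mul_mod_self_left, Nat.mod_eq_of_lt hq.1]
        · rw [Nat.add_mul_div_left _ _ ha0, Nat.div_eq_of_lt hq.1, zero_add]
      · intro i _
        congr 1
        have h2 : (i : ℚ) = (i % a : ℕ) + a * (i / a : ℕ) := by
          exact_mod_cast (Nat.mod_add_div i a).symm
        rw [add_assoc]
        congr 1
        rw [h2]
        push_cast
        field_simp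
    rw [h1]
    simp_rw [hcb]
    rw [Finset.sum_add_distrib, Finset.sum_const, Finset.card_range]
    have h2 : ∀ u : ℕ, (b : ℚ) * (x + u / (a * b)) = b * x + u / a := by
      intro u; field_simp
    simp_rw [h2]
    rw [hca (b * x)]
    rw [show (a : ℚ) * (b * x) = ((a * b : ℕ) : ℚ) * x by push_cast; ring, add_smul, mul_smul,
      natCast_zsmul]
    abel

end Pool.Agent.helper34.DH
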